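import Pool.Agent.W896.FD.Gen

/-!
# Cliques and circuits of small formal degree
-/

set_option autoImplicit false

open Finset

namespace Pool.Agent.W896.FD

open Pool.Agent.W896.RK Pool.Agent.W896.HP

namespace CL

variable {b u r n : ℕ}

/-- The vertices: blocks with four vertices, `u` universal vertices, `r` isolated vertices. -/
abbrev WC (b u r : ℕ) := (Fin b × Fin 4) ⊕ (Fin u ⊕ Fin r)

/-- The adjacency of the base graph. -/
def bAdj : WC b u r → WC b u r → Prop
  | .inl (i, _), .inl (j, _) => i ≠ j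
  | .inl _, .inr (.inl _) => True
  | .inr (.inl _), .inl _ => True
  | .inr (.inl v), .inr (.inl w) => v ≠ w
  | _, _ => False

/-- The base graph. -/
def bs (b u r : ℕ) : SimpleGraph (WC b u r) where
  Adj := bAdj
  symm := ⟨by
    rintro (⟨i, x⟩ | v | v) (⟨j, y⟩ | w | w) h
    · exact fun h' => h h'.symm
    · trivial
    · exact h
    · trivial
    · exact fun h' => h h'.symm
    · exact h
    · exact h
    · exact h
    · exact h⟩
  loopless := ⟨by
    rintro (⟨i, x⟩ | v | v) h
    · exact h rfl
    · exact h rfl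
    · exact h⟩

/-- The vertices of the variable pairs. -/
def cl (b u r : ℕ) : Fin b × Fin 4 ↪ WC b u r := ⟨Sum.inl, Sum.inl_injective⟩

/-- The colours. -/
abbrev Col (b u : ℕ) := (Fin b × Bool) ⊕ Fin u

/-- The colouring. -/
def col (i₀ : Fin b) : WC b u r → Col b u
  | .inl (i, x) => if i = i₀ then .inl (i₀, false) else .inl (i, x == 1 || x == 3)
  | .inr (.inl v) => .inr v
  | .inr (.inr _) => .inl (i₀, false)

theorem col_ne (i₀ : Fin b) (x : WC b u r) : col i₀ x ≠ .inl (i₀, true) := by
  rcases x with ⟨i, x⟩ | v | v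
  · change (if i = i₀ then (.inl (i₀, false) : Col b u) else .inl (i, x == 1 || x == 3)) ≠ _
    split_ifs with h
    · simp
    · intro h'
      have := Sum.inl_injective h'
      rw [Prod.mk.injEq] at this
      exact h this.1
  · simp [col]
  · simp [col]

theorem col_adj {z z' : Fin b → Bool} {i₀ : Fin b} (h1 : z i₀ = false) (h2 : z' i₀ = true)
    {x y : WC b u r} (h : (Gz (cl b u r) (bs b u r) z z').Adj x y) : col i₀ x ≠ col i₀ y := by
  rw [← SimpleGraph.mem_edgeSet, mem_Gz] at h
  obtain ⟨h, -⟩ := h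
  have key : ∀ (i : Fin b) (a a' : Fin 4), i ≠ i₀ → ((a == 1 || a == 3) ≠ (a' == 1 || a' == 3)) →
      col i₀ (.inl (i, a) : WC b u r) ≠ col i₀ (.inl (i, a') : WC b u r) := by
    intro i a a' hi hne he
    change (if i = i₀ then (.inl (i₀, false) : Col b u) else .inl (i, a == 1 || a == 3)) =
      (if i = i₀ then (.inl (i₀, false) : Col b u) else .inl (i, a' == 1 || a' == 3)) at he
    rw [if_neg hi, if_neg hi] at he
    have := Sum.inl_injective he
    rw [Prod.mk.injEq] at this
    exact hne this.2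
  rcases h with ⟨i, h, hz⟩ | ⟨i, h, hz⟩ | ⟨h, -⟩
  · have hi : i ≠ i₀ := by rintro rfl; rw [h1] at hz; exact absurd hz (by decide)
    change s(x, y) = s(Sum.inl (i, 0), Sum.inl (i, 1)) at h
    rw [Sym2.eq_iff] at h
    rcases h with ⟨rfl, rfl⟩ | ⟨rfl, rfl⟩
    · exact key i 0 1 hi (by decide)
    · exact key i 1 0 hi (by decide)
  · have hi : i ≠ i₀ := by rintro rfl; rw [h2] at hz; exact absurd hz (by decide)
    change s(x, y) = s(Sum.inl (i, 2), Sum.inl (i, 3)) at h
    rw [Sym2.eq_iff] at h
    rcases h with ⟨rfl, rfl⟩ | ⟨rfl, rfl⟩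
    · exact key i 2 3 hi (by decide)
    · exact key i 3 2 hi (by decide)
  · rw [SimpleGraph.mem_edgeSet] at h
    change bAdj x y at h
    rcases x with ⟨i, a⟩ | v | v <;> rcases y with ⟨j, a'⟩ | w | w
    · have hij : i ≠ j := h
      change (if i = i₀ then (.inl (i₀, false) : Col b u) else .inl (i, a == 1 || a == 3)) ≠
        (if j = i₀ then (.inl (i₀, false) : Col b u) else .inl (j, a' == 1 || a' == 3))
      split_ifs with h3 h4 h4
      · exact absurd (h3.trans h4.symm) hij
      · intro he
        have := Sum.inl_injective he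
        rw [Prod.mk.injEq] at this
        exact h4 this.1.symm
      · intro he
        have := Sum.inl_injective he
        rw [Prod.mk.injEq] at this
        exact h3 this.1
      · intro he
        have := Sum.inl_injective he
        rw [Prod.mk.injEq] at this
        exact hij this.1
    · change (if i = i₀ then (.inl (i₀, false) : Col b u) else .inl (i, a == 1 || a == 3)) ≠
        .inr w
      split_ifs <;> simp
    · exact absurd h (by simp [bAdj])
    · change .inr v ≠
        (if j = i₀ then (.inl (i₀, false) : Col b u) else .inl (j, a' == 1 || a' == 3))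
      split_ifs <;> simp
    · have hvw : v ≠ w := h
      unfold col
      simpa using hvw
    · exact absurd h (by simp [bAdj])
    · exact absurd h (by simp [bAdj])
    · exact absurd h (by simp [bAdj])
    · exact absurd h (by simp [bAdj])

theorem free {z z' : Fin b → Bool} (h : ∃ i, z i = false ∧ z' i = true) :
    (Gz (cl b u r) (bs b u r) z z').CliqueFree (2 * b + u) := by
  classical
  obtain ⟨i₀, h1, h2⟩ := h
  let C : (Gz (cl b u r) (bs b u r) z z').Coloring {c : Col b u // c ≠ .inl (i₀, true)} :=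
    SimpleGraph.Coloring.mk (fun x => ⟨col i₀ x, col_ne i₀ x⟩) (by
      intro x y hxy he
      exact col_adj h1 h2 hxy (congrArg Subtype.val he))
  refine C.colorable.cliqueFree ?_
  have h3 : Fintype.card {c : Col b u // c ≠ .inl (i₀, true)} < Fintype.card (Col b u) :=
    Fintype.card_subtype_lt (x := .inl (i₀, true)) (by simp)
  refine h3.trans_le (le_of_eq ?_)
  rw [Fintype.card_sum, Fintype.card_prod, Fintype.card_bool, Fintype.card_fin, Fintype.card_fin]
  ring

/-- The vertex of a block in the clique. -/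
def vx (p β : Bool) : Fin 4 := if p then (if β then 1 else 0) else (if β then 3 else 2)

theorem vx_inj : ∀ p β β', vx p β = vx p β' → β = β' := by decide

/-- The clique. -/
def clq (z : Fin b → Bool) : Col b u → WC b u r
  | .inl (i, β) => .inl (i, vx (z i) β)
  | .inr v => .inr (.inl v)

theorem clq_inj (z : Fin b → Bool) : Function.Injective (clq (u := u) (r := r) z) := by
  rintro (⟨i, β⟩ | v) (⟨j, β'⟩ | w) h
  · have h' := Sum.inl_injective h
    rw [Prod.mk.injEq] at h'
    obtain ⟨rfl, h'⟩ := h'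
    rw [vx_inj _ _ _ h']
  · exact absurd h (by simp [clq])
  · exact absurd h (by simp [clq])
  · have h' := Sum.inl_injective (Sum.inr_injective h)
    rw [h']

theorem clq_adj (z : Fin b → Bool) {x y : Col b u} (h : x ≠ y) :
    (Gz (cl b u r) (bs b u r) z z).Adj (clq z x) (clq z y) := by
  have key : ∀ x y : WC b u r, bAdj x y → (Gz (cl b u r) (bs b u r) z z).Adj x y := by
    intro x y h
    rw [← SimpleGraph.mem_edgeSet, mem_Gz]
    refine ⟨Or.inr (Or.inr ⟨h, fun i => ⟨?_, ?_⟩⟩), ?_⟩
    · intro he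
      change s(x, y) = s(Sum.inl (i, 0), Sum.inl (i, 1)) at he
      rw [Sym2.eq_iff] at he
      rcases he with ⟨rfl, rfl⟩ | ⟨rfl, rfl⟩ <;> exact h rfl
    · intro he
      change s(x, y) = s(Sum.inl (i, 2), Sum.inl (i, 3)) at he
      rw [Sym2.eq_iff] at he
      rcases he with ⟨rfl, rfl⟩ | ⟨rfl, rfl⟩ <;> exact h rfl
    · rw [Sym2.mk_isDiag_iff]
      rintro rfl
      exact (bs b u r).loopless.irrefl x h
  have pr : ∀ (i : Fin b) (β β' : Bool), β ≠ β' → (Gz (cl b u r) (bs b u r) z z).Adj
      (.inl (i, vx (z i) β)) (.inl (i, vx (z i) β')) := by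
    intro i β β' hβ
    rw [← SimpleGraph.mem_edgeSet, mem_Gz]
    refine ⟨?_, ?_⟩
    · cases hz : z i with
      | true =>
        refine Or.inl ⟨i, ?_, hz⟩
        change s(Sum.inl (i, vx true β), Sum.inl (i, vx true β')) =
          s((Sum.inl (i, 0) : WC b u r), Sum.inl (i, 1))
        rw [Sym2.eq_iff]
        cases β <;> cases β'
        · exact absurd rfl hβ
        · exact Or.inl ⟨rfl, rfl⟩
        · exact Or.inr ⟨rfl, rfl⟩
        · exact absurd rfl hβ
      | false =>
        refine Or.inr (Or.inl ⟨i, ?_, hz⟩)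
        change s(Sum.inl (i, vx false β), Sum.inl (i, vx false β')) =
          s((Sum.inl (i, 2) : WC b u r), Sum.inl (i, 3))
        rw [Sym2.eq_iff]
        cases β <;> cases β'
        · exact absurd rfl hβ
        · exact Or.inl ⟨rfl, rfl⟩
        · exact Or.inr ⟨rfl, rfl⟩
        · exact absurd rfl hβ
    · rw [Sym2.mk_isDiag_iff]
      intro he
      have h' := Sum.inl_injective he
      rw [Prod.mk.injEq] at h'
      exact hβ (vx_inj _ _ _ h'.2)
  rcases x with ⟨i, β⟩ | v <;> rcases y with ⟨j, β'⟩ | w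
  · by_cases hij : i = j
    · subst hij
      exact pr i β β' (fun hh => h (by rw [hh]))
    · exact key _ _ hij
  · exact key _ _ trivial
  · exact key _ _ trivial
  · exact key _ _ (fun hh : v = w => h (by rw [hh]))

theorem has (z : Fin b → Bool) :
    ¬ (Gz (cl b u r) (bs b u r) z z).CliqueFree (2 * b + u) := by
  classical
  let f : (⊤ : SimpleGraph (Col b u)) ↪g (Gz (cl b u r) (bs b u r) z z) :=
    ⟨⟨clq z, clq_inj z⟩, by
      intro x y
      change (Gz (cl b u r) (bs b u r) z z).Adj (clq z x) (clq z y) ↔ (⊤ : SimpleGraph _).Adj x y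
      rw [SimpleGraph.top_adj]
      constructor
      · rintro h rfl
        exact (Gz (cl b u r) (bs b u r) z z).loopless.irrefl _ h
      · exact clq_adj z⟩
  have h2 : Fintype.card (Col b u) = 2 * b + u := by
    rw [Fintype.card_sum, Fintype.card_prod, Fintype.card_bool, Fintype.card_fin,
      Fintype.card_fin]
    ring
  intro h
  have h1 := SimpleGraph.CliqueFree.comap f.isContained h
  apply h1 univ
  rw [SimpleGraph.isNClique_iff]
  refine ⟨?_, by rw [card_univ, h2]⟩
  intro x _ y _ hxy
  exact (SimpleGraph.top_adj x y).2 hxy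

end CL

theorem clique_final (k n s : ℕ) (R : Type) [Fintype R] [Nonempty R]
    (U : R → Circ (Sym2 (Fin n)))
    (hU : ∀ r (G : SimpleGraph (Fin n)), (U r).Val (bits G) (U r).out → ¬ G.CliqueFree s)
    (hc : ∀ G : SimpleGraph (Fin n), ¬ G.CliqueFree s →
      Nat.card R ≤ 2 ^ (min s (n - s) / 2 ^ (60 * (k + 1))) *
        Nat.card {r // (U r).Val (bits G) (U r).out})
    (hd : ∀ r, ∃ d : (U r).G → Sym2 (Fin n) → ℕ, IsDeg (U r) id d ∧
      ∑ e, d (U r).out e ≤ k * n ^ 2) :
    ∃ r, min s (n - s) ≤ 2 ^ (60 * (k + 1)) * (Nat.log 2 (Fintype.card (U r).G) + 1) := by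
  classical
  obtain ⟨b, hb⟩ : ∃ b, b = min s (n - s) / 2 := ⟨_, rfl⟩
  rcases Nat.lt_or_ge n s with hns | hns
  · obtain ⟨r⟩ := (inferInstance : Nonempty R)
    refine ⟨r, ?_⟩
    have : min s (n - s) = 0 := by omega
    rw [this]
    exact Nat.zero_le _
  obtain ⟨u, hu⟩ : ∃ u, u = s - 2 * b := ⟨_, rfl⟩
  obtain ⟨r, hr⟩ : ∃ r, r = n - 2 * b - s := ⟨_, rfl⟩
  have hs : 2 * b + u = s := by omega
  have hcard : Fintype.card (CL.WC b u r) = Fintype.card (Fin n) := by
    rw [Fintype.card_sum, Fintype.card_prod, Fintype.card_sum, Fintype.card_fin, Fintype.card_fin,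
      Fintype.card_fin, Fintype.card_fin, Fintype.card_fin]
    omega
  obtain ⟨φ⟩ : Nonempty (CL.WC b u r ≃ Fin n) := ⟨Fintype.equivOfCardEq hcard⟩
  have hfill : ∀ G : SimpleGraph (Fin n), fill (id : Sym2 (Fin n) → Sym2 (Fin n))
      (fun _ => false) (bits G) = bits G := by
    intro G
    funext v
    exact fill_apply Function.injective_id _ _ v
  refine final_graphB k (min s (n - s)) (by omega) (b := b) (by omega) φ (CL.cl b u r)
    (CL.bs b u r) (p := id) Function.injective_id (fun _ => false)
    (fun G => ¬ G.CliqueFree s) ?_ ?_ ?_ R U ?_ ?_ hd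
  · intro G ρ h h'
    exact h (SimpleGraph.CliqueFree.comap ⟨(SimpleGraph.Iso.map ρ G).toCopy⟩ h')
  · intro z h
    rw [← hs] at h
    exact CL.has z (SimpleGraph.CliqueFree.comap ⟨(SimpleGraph.Iso.map φ _).toCopy⟩ h)
  · intro z z' h h'
    apply h'
    rw [← hs]
    exact SimpleGraph.CliqueFree.comap ⟨(SimpleGraph.Iso.map φ _).symm.toCopy⟩ (CL.free h)
  · intro r G hG
    rw [hfill] at hG
    exact hU r G hG
  · intro G hG
    have h1 := hc G hG
    rw [hfill]
    exact h1

end Pool.Agent.W896.FD
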