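import Pool.Agent.W896.FD.Tri

/-!
# Triangles of weight zero, and circuits of small formal degree
-/

set_option autoImplicit false
set_option maxHeartbeats 1000000

open Finset

namespace Pool.Agent.W896.FD.ExTri

open Pool.Agent.W896.RK Pool.Agent.W896.HP Pool.Agent.W896.FD Pool.Agent.W896.FD.Star
open Pool.Agent.W896.FD.Tri (Mt mt_ne mt_symm mt_unique grS_0 grS_2 row row_inj deg_comp)

variable {n b w : ℕ}

/-- The names of the bits of an entry of the matrix: `none` is the edge flag, `some none` the sign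
of the weight and `some (some j)` the bit of the weight with the value `2 ^ j`. -/
abbrev Pl (w : ℕ) : Type := Option (Option (Fin (w + 1)))

/-- The weight of a pair. -/
def wt3 (x : Sym2 (Fin n) × Pl w → Bool) (e : Sym2 (Fin n)) : ℤ :=
  (if x (e, some none) = true then -1 else 1) * (Nat.ofBits (fun j => x (e, some (some j))) : ℤ)

/-- There are no loops, and the weights are in `[-n ^ 300, n ^ 300]`. -/
def Valid (x : Sym2 (Fin n) × Pl w → Bool) : Prop :=
  (∀ i, x (s(i, i), none) = false) ∧ ∀ e, |wt3 x e| ≤ (n : ℤ) ^ 300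

/-- There is a triangle of weight zero. -/
def Yes (x : Sym2 (Fin n) × Pl w → Bool) : Prop :=
  ∃ i j l : Fin n, i ≠ j ∧ j ≠ l ∧ i ≠ l ∧ x (s(i, j), none) = true ∧ x (s(j, l), none) = true ∧
    x (s(i, l), none) = true ∧ wt3 x s(i, j) + wt3 x s(j, l) + wt3 x s(i, l) = 0

open Classical in
/-- Half of the absolute value of the weight. -/
noncomputable def hw (u : Fin (n + 1)) (c : Fin b × Fin 4 → Fin n) (ρ : Equiv.Perm (Fin n))
    (e : Sym2 (Fin (n + 1))) : ℕ :=
  if ∃ v, row u v = e then 0 else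
    if ∃ v w, Mt c ρ v w ∧ e = s(u.succAbove v, u.succAbove w) then 1 else 2

open Classical in
/-- The fixed bits. -/
noncomputable def fx (u : Fin (n + 1)) (c : Fin b × Fin 4 → Fin n) (ρ : Equiv.Perm (Fin n)) :
    Sym2 (Fin (n + 1)) × Pl w → Bool
  | (e, none) => decide (¬ e.IsDiag)
  | (e, some none) => decide (∃ v w, Mt c ρ v w ∧ e = s(u.succAbove v, u.succAbove w))
  | (e, some (some j)) => (Nat.bit false (hw u c ρ e)).testBit j.val

/-- The place of the last bit of the weight. -/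
def pl (u : Fin (n + 1)) (v : Fin n) : Sym2 (Fin (n + 1)) × Pl w := (row u v, some (some 0))

theorem pl_inj (u : Fin (n + 1)) : Function.Injective (pl (w := w) u) := by
  intro v v' h
  exact row_inj u (congrArg Prod.fst h)

/-- The instance. -/
noncomputable def insE (w : ℕ) (u : Fin (n + 1)) (c : Fin b × Fin 4 → Fin n)
    (ρ : Equiv.Perm (Fin n)) (z z' : Fin b → Bool) : Sym2 (Fin (n + 1)) × Pl w → Bool :=
  inS true (pl u) (fun ρ => fx u c ρ) c ρ z z'

theorem insE_other (u : Fin (n + 1)) (c : Fin b × Fin 4 → Fin n) (ρ : Equiv.Perm (Fin n))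
    (z z' : Fin b → Bool) {y : Sym2 (Fin (n + 1)) × Pl w} (h : ∀ v, pl u v ≠ y) :
    insE w u c ρ z z' y = fx u c ρ y := by
  unfold insE inS
  rw [fill_other _ _ h]

theorem insE_pl (u : Fin (n + 1)) (c : Fin b × Fin 4 → Fin n) (ρ : Equiv.Perm (Fin n))
    (z z' : Fin b → Bool) (v : Fin n) :
    insE w u c ρ z z' (row u v, some (some 0)) = grS true c z z' (ρ.symm v) := by
  unfold insE inS
  exact fill_apply (pl_inj u) _ _ v

theorem insE_flag (u : Fin (n + 1)) (c : Fin b × Fin 4 → Fin n) (ρ : Equiv.Perm (Fin n))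
    (z z' : Fin b → Bool) (e : Sym2 (Fin (n + 1))) :
    insE w u c ρ z z' (e, none) = true ↔ ¬ e.IsDiag := by
  rw [insE_other]
  · unfold fx
    exact decide_eq_true_iff
  · intro v h
    have := congrArg Prod.snd h
    unfold pl at this
    cases this

theorem succ_ne_row {u : Fin (n + 1)} {v w : Fin n} :
    ¬ ∃ t, row u t = s(u.succAbove v, u.succAbove w) := by
  rintro ⟨t, h⟩
  unfold row at h
  rw [Sym2.eq_iff] at h
  rcases h with ⟨h, -⟩ | ⟨h, -⟩
  · exact Fin.ne_succAbove u _ h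
  · exact Fin.ne_succAbove u _ h

theorem mt_pair (u : Fin (n + 1)) (c : Fin b × Fin 4 ↪ Fin n) (ρ : Equiv.Perm (Fin n))
    (v w : Fin n) : (∃ v' w', Mt c ρ v' w' ∧ s(u.succAbove v, u.succAbove w) =
      s(u.succAbove v', u.succAbove w')) ↔ Mt c ρ v w := by
  constructor
  · rintro ⟨v', w', h, he⟩
    rw [Sym2.eq_iff] at he
    rcases he with ⟨h1, h2⟩ | ⟨h1, h2⟩
    · rw [Fin.succAbove_right_injective h1, Fin.succAbove_right_injective h2]
      exact h
    · rw [Fin.succAbove_right_injective h1, Fin.succAbove_right_injective h2]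
      exact mt_symm h
  · intro h
    exact ⟨v, w, h, rfl⟩

/-- The weights at `u`. -/
theorem wt_row (u : Fin (n + 1)) (c : Fin b × Fin 4 ↪ Fin n) (ρ : Equiv.Perm (Fin n))
    (z z' : Fin b → Bool) (v : Fin n) :
    wt3 (insE w u c ρ z z') (row u v) = ((grS true c z z' (ρ.symm v)).toNat : ℤ) := by
  unfold wt3
  have hs : insE w u c ρ z z' (row u v, some none) = false := by
    rw [insE_other]
    · unfold fx
      rw [decide_eq_false_iff_not]
      rintro ⟨v', w', -, h⟩
      exact succ_ne_row ⟨v, h⟩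
    · intro v' h
      have := congrArg Prod.snd h
      unfold pl at this
      cases this
  have hb : (fun j => insE w u c ρ z z' (row u v, some (some j))) =
      fun j : Fin (w + 1) => (Nat.bit (grS true c z z' (ρ.symm v)) 0).testBit j.val := by
    funext j
    rcases eq_or_ne j 0 with rfl | hj
    · rw [insE_pl, Fin.val_zero, Nat.testBit_bit_zero]
    · have hj' : ∃ j', j.val = j' + 1 := by
        refine ⟨j.val - 1, ?_⟩
        have : j.val ≠ 0 := fun h => hj (Fin.ext h)
        omega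
      obtain ⟨j', hj'⟩ := hj'
      rw [insE_other]
      · have h1 : ∃ v', row u v' = row u v := ⟨v, rfl⟩
        unfold fx hw
        simp only [h1, if_true]
        rw [hj', Nat.testBit_bit_succ, Nat.testBit_bit_succ]
      · intro v' h
        have h1 := congrArg Prod.snd h
        unfold pl at h1
        simp only [Option.some.injEq] at h1
        exact hj h1.symm
  rw [hs, hb, Nat.ofBits_testBit, Nat.mod_eq_of_lt]
  · rw [Nat.bit_val]
    simp
  · rw [Nat.bit_val]
    have := Bool.toNat_le (grS true c z z' (ρ.symm v))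
    have h2 : 2 ≤ 2 ^ (w + 1) := by
      rw [pow_succ]
      have := Nat.one_le_two_pow (n := w)
      omega
    omega

/-- The other weights. -/
theorem wt_other (h4 : 4 < 2 ^ (w + 1)) (u : Fin (n + 1)) (c : Fin b × Fin 4 ↪ Fin n)
    (ρ : Equiv.Perm (Fin n)) (z z' : Fin b → Bool) (v v' : Fin n) :
    (Mt c ρ v v' ∧ wt3 (insE w u c ρ z z') s(u.succAbove v, u.succAbove v') = -2) ∨
    (¬ Mt c ρ v v' ∧ wt3 (insE w u c ρ z z') s(u.succAbove v, u.succAbove v') = 4) := by
  classical
  unfold wt3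
  have hb : (fun j => insE w u c ρ z z' (s(u.succAbove v, u.succAbove v'), some (some j))) =
      fun j : Fin (w + 1) =>
        (Nat.bit false (hw u c ρ s(u.succAbove v, u.succAbove v'))).testBit j.val := by
    funext j
    rw [insE_other]
    · rfl
    · intro t h
      exact succ_ne_row ⟨t, congrArg Prod.fst h⟩
  have hs : insE w u c ρ z z' (s(u.succAbove v, u.succAbove v'), some none) = true ↔
      Mt c ρ v v' := by
    rw [insE_other]
    · unfold fx
      refine decide_eq_true_iff.trans ?_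
      exact mt_pair u c ρ v v'
    · intro t h
      exact succ_ne_row ⟨t, congrArg Prod.fst h⟩
  rw [hb, Nat.ofBits_testBit]
  by_cases hm : Mt c ρ v v'
  · refine Or.inl ⟨hm, ?_⟩
    have h1 : hw u c ρ s(u.succAbove v, u.succAbove v') = 1 := by
      unfold hw
      rw [if_neg succ_ne_row, if_pos ((mt_pair u c ρ v v').2 hm)]
    rw [h1, if_pos (hs.2 hm), Nat.mod_eq_of_lt (by rw [Nat.bit_val]; simp only [Bool.toNat_false]; omega)]
    norm_num
  · refine Or.inr ⟨hm, ?_⟩
    have h1 : hw u c ρ s(u.succAbove v, u.succAbove v') = 2 := by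
      unfold hw
      rw [if_neg succ_ne_row, if_neg (fun h => hm ((mt_pair u c ρ v v').1 h))]
    have h2 : ¬ (insE w u c ρ z z' (s(u.succAbove v, u.succAbove v'), some none) = true) :=
      fun h => hm (hs.1 h)
    rw [h1, if_neg h2, Nat.mod_eq_of_lt (by rw [Nat.bit_val]; simp only [Bool.toNat_false]; omega)]
    norm_num

theorem validE (h4 : 4 < 2 ^ (w + 1)) (hn : 1 ≤ n) (u : Fin (n + 1)) (c : Fin b × Fin 4 ↪ Fin n)
    (ρ : Equiv.Perm (Fin n)) (z z' : Fin b → Bool) : Valid (insE w u c ρ z z') := by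
  have hpow : (4 : ℤ) ≤ ((n + 1 : ℕ) : ℤ) ^ 300 := by
    have h1 : (2 : ℤ) ≤ ((n + 1 : ℕ) : ℤ) := by push_cast; omega
    calc (4 : ℤ) = 2 ^ 2 := by norm_num
      _ ≤ 2 ^ 300 := pow_le_pow_right₀ (by norm_num) (by norm_num)
      _ ≤ _ := pow_le_pow_left₀ (by norm_num) h1 300
  constructor
  · intro i
    cases h : insE w u c ρ z z' (s(i, i), none) with
    | false => rfl
    | true => exact absurd (Sym2.mk_isDiag_iff.2 rfl) ((insE_flag u c ρ z z' _).1 h)
  · intro e
    refine le_trans ?_ hpow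
    clear hpow
    induction e with
    | _ x y =>
      rcases Fin.eq_self_or_eq_succAbove u x with hx | ⟨x', hx⟩
      · rcases Fin.eq_self_or_eq_succAbove u y with hy | ⟨y', hy⟩
        · -- the diagonal entry at `u`
          rw [hx, hy]
          unfold wt3
          have hr : ¬ ∃ v, row u v = s(u, u) := by
            rintro ⟨v, h⟩
            unfold row at h
            rw [Sym2.eq_iff] at h
            rcases h with ⟨-, h⟩ | ⟨-, h⟩ <;> exact Fin.succAbove_ne u v h
          have hm : ¬ ∃ v w, Mt c ρ v w ∧ s(u, u) = s(u.succAbove v, u.succAbove w) := by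
            rintro ⟨v, w, -, h⟩
            rw [Sym2.eq_iff] at h
            rcases h with ⟨h, -⟩ | ⟨h, -⟩ <;> exact Fin.ne_succAbove u _ h
          have hb : (fun j => insE w u c ρ z z' (s(u, u), some (some j))) =
              fun j : Fin (w + 1) => (Nat.bit false (hw u c ρ s(u, u))).testBit j.val := by
            funext j
            rw [insE_other]
            · rfl
            · intro t h
              exact hr ⟨t, congrArg Prod.fst h⟩
          have h1 : hw u c ρ s(u, u) = 2 := by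
            unfold hw
            rw [if_neg hr, if_neg hm]
          rw [hb, Nat.ofBits_testBit, h1,
            Nat.mod_eq_of_lt (by rw [Nat.bit_val]; simp only [Bool.toNat_false]; omega)]
          split_ifs <;> norm_num
        · have := wt_row (w := w) u c ρ z z' y'
          unfold row at this
          rw [hx, hy, this]
          have h2 : ((grS true c z z' (ρ.symm y')).toNat : ℤ) ≤ 1 := by
            exact_mod_cast Bool.toNat_le _
          rw [abs_of_nonneg (by positivity)]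
          omega
      · rcases Fin.eq_self_or_eq_succAbove u y with hy | ⟨y', hy⟩
        · have := wt_row (w := w) u c ρ z z' x'
          unfold row at this
          rw [hx, hy, Sym2.eq_swap, this]
          have h2 : ((grS true c z z' (ρ.symm x')).toNat : ℤ) ≤ 1 := by
            exact_mod_cast Bool.toNat_le _
          rw [abs_of_nonneg (by positivity)]
          omega
        · rw [hx, hy]
          rcases wt_other h4 u c ρ z z' x' y' with ⟨-, h⟩ | ⟨-, h⟩ <;> rw [h] <;> norm_num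

/-- Equal states: no triangle of weight zero. -/
theorem noE (h4 : 4 < 2 ^ (w + 1)) (u : Fin (n + 1)) (c : Fin b × Fin 4 ↪ Fin n)
    (ρ : Equiv.Perm (Fin n)) (z : Fin b → Bool) : ¬ Yes (insE w u c ρ z z) := by
  have key : ∀ v v' : Fin n, wt3 (insE w u c ρ z z) s(u, u.succAbove v) +
      wt3 (insE w u c ρ z z) s(u, u.succAbove v') +
      wt3 (insE w u c ρ z z) s(u.succAbove v, u.succAbove v') ≠ 0 := by
    intro v v' h
    have e1 := wt_row (w := w) u c ρ z z v
    have e2 := wt_row (w := w) u c ρ z z v'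
    unfold row at e1 e2
    rw [e1, e2] at h
    have g1 : (0 : ℤ) ≤ ((grS true c z z (ρ.symm v)).toNat : ℤ) := by positivity
    have g2 : (0 : ℤ) ≤ ((grS true c z z (ρ.symm v')).toNat : ℤ) := by positivity
    rcases wt_other h4 u c ρ z z v v' with ⟨hm, h3⟩ | ⟨-, h3⟩
    · rw [h3] at h
      obtain ⟨i, ⟨h5, h6⟩ | ⟨h5, h6⟩⟩ := hm
      · rw [h5, h6, Equiv.symm_apply_apply, Equiv.symm_apply_apply, grS_0, grS_2] at h
        cases hz : z i <;> rw [hz] at h <;> simp at h
      · rw [h5, h6, Equiv.symm_apply_apply, Equiv.symm_apply_apply, grS_0, grS_2] at h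
        cases hz : z i <;> rw [hz] at h <;> simp at h
    · rw [h3] at h
      linarith
  rintro ⟨x, y, t, hxy, hyt, hxt, -, -, -, h⟩
  rcases Fin.eq_self_or_eq_succAbove u x with hx | ⟨x', hx⟩
  · rcases Fin.eq_self_or_eq_succAbove u y with hy | ⟨y', hy⟩
    · exact hxy (hx.trans hy.symm)
    rcases Fin.eq_self_or_eq_succAbove u t with ht | ⟨t', ht⟩
    · exact hxt (hx.trans ht.symm)
    rw [hx, hy, ht] at h
    exact key y' t' (by linarith)
  rcases Fin.eq_self_or_eq_succAbove u y with hy | ⟨y', hy⟩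
  · rcases Fin.eq_self_or_eq_succAbove u t with ht | ⟨t', ht⟩
    · exact hyt (hy.trans ht.symm)
    rw [hx, hy, ht, Sym2.eq_swap (a := u.succAbove x') (b := u)] at h
    exact key x' t' (by linarith)
  rcases Fin.eq_self_or_eq_succAbove u t with ht | ⟨t', ht⟩
  · rw [hx, hy, ht, Sym2.eq_swap (a := u.succAbove y') (b := u),
      Sym2.eq_swap (a := u.succAbove x') (b := u)] at h
    exact key x' y' (by linarith)
  · rw [hx, hy, ht] at h
    have hxy' : x' ≠ y' := fun h => hxy (by rw [hx, hy, h])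
    have hyt' : y' ≠ t' := fun h => hyt (by rw [hy, ht, h])
    have hxt' : x' ≠ t' := fun h => hxt (by rw [hx, ht, h])
    rcases wt_other h4 u c ρ z z x' y' with ⟨m1, h1⟩ | ⟨-, h1⟩ <;>
    rcases wt_other h4 u c ρ z z y' t' with ⟨m2, h2⟩ | ⟨-, h2⟩ <;>
    rcases wt_other h4 u c ρ z z x' t' with ⟨m3, h3⟩ | ⟨-, h3⟩ <;>
    first
    | exact hxt' (mt_unique c ρ (mt_symm m1) m2)
    | exact hyt' (mt_unique c ρ m1 m3)
    | exact hxy' (mt_unique c ρ (mt_symm m3) (mt_symm m2))
    | (rw [h1, h2, h3] at h; norm_num at h)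

/-- Different states: a triangle of weight zero. -/
theorem yesE (u : Fin (n + 1)) (h4 : 4 < 2 ^ (w + 1)) (c : Fin b × Fin 4 ↪ Fin n)
    (ρ : Equiv.Perm (Fin n)) (z z' : Fin b → Bool) {i : Fin b} (h : z i = true)
    (h' : z' i = false) : Yes (insE w u c ρ z z') := by
  have hm : Mt c ρ (ρ (c (i, 0))) (ρ (c (i, 2))) := ⟨i, Or.inl ⟨rfl, rfl⟩⟩
  have hne := mt_ne c ρ hm
  refine ⟨u, u.succAbove (ρ (c (i, 0))), u.succAbove (ρ (c (i, 2))), Fin.ne_succAbove u _,
    fun h => hne (Fin.succAbove_right_injective h), Fin.ne_succAbove u _, ?_, ?_, ?_, ?_⟩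
  · rw [insE_flag, Sym2.mk_isDiag_iff]; exact Fin.ne_succAbove u _
  · rw [insE_flag, Sym2.mk_isDiag_iff]; exact fun h => hne (Fin.succAbove_right_injective h)
  · rw [insE_flag, Sym2.mk_isDiag_iff]; exact Fin.ne_succAbove u _
  · have e1 := wt_row (w := w) u c ρ z z' (ρ (c (i, 0)))
    have e2 := wt_row (w := w) u c ρ z z' (ρ (c (i, 2)))
    unfold row at e1 e2
    rcases wt_other h4 u c ρ z z' (ρ (c (i, 0))) (ρ (c (i, 2))) with ⟨-, h3⟩ | ⟨h3, -⟩
    · rw [e1, e2, h3, Equiv.symm_apply_apply, Equiv.symm_apply_apply, grS_0, grS_2, h, h']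
      rfl
    · exact absurd hm h3

/-- One row. -/
theorem ex_row (k n w : ℕ) (h4 : 4 < 2 ^ (w + 1)) (u : Fin (n + 1)) (R : Type) [Fintype R]
    [Nonempty R] (U : R → Circ (Sym2 (Fin (n + 1)) × Pl w)) (hn : 1 ≤ n)
    (hU : ∀ r x, Valid x → (U r).Val x (U r).out → ¬ Yes x)
    (hc : ∀ x, Valid x → ¬ Yes x →
      Nat.card R ≤ 2 ^ (n / 2 ^ (60 * (k + 1))) * Nat.card {r // (U r).Val x (U r).out})
    (hd : ∀ r, ∃ d : (U r).G → Fin n → ℕ, IsDeg (U r) (pl u) d ∧
      ∑ e, d (U r).out e ≤ k * n) :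
    ∃ r, n ≤ 2 ^ (60 * (k + 1)) * (Nat.log 2 (Fintype.card (U r).G) + 1) := by
  classical
  obtain ⟨b, hb⟩ : ∃ b, b = n / 4 := ⟨_, rfl⟩
  have hb1 : n < 4 * (b + 1) := by rw [hb]; exact Nat.lt_mul_div_succ n (by norm_num)
  have hb2 : 4 * b ≤ n := by rw [hb]; exact Nat.mul_div_le _ _
  obtain ⟨c⟩ : Nonempty (Fin b × Fin 4 ↪ Fin n) := by
    apply Function.Embedding.nonempty_of_card_le
    rw [Fintype.card_prod, Fintype.card_fin, Fintype.card_fin, Fintype.card_fin]
    omega
  refine Star.final (ν := true) k (b := b) (by omega) (pl_inj u) (fun ρ => fx u c ρ) c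
    (fun ρ z z' => ¬ Yes (insE w u c ρ z z')) 0 ?_ ?_ R U ?_ ?_ hd
  · rw [vol_zero]
    exact Nat.one_le_two_pow
  · rintro ρ z z' h ⟨h1, h2⟩
    unfold dst at h
    obtain ⟨i, hi⟩ := card_pos.1 h
    have hi' := (mem_filter.1 hi).2
    cases hz : z i with
    | true =>
      cases hz' : z' i with
      | true => exact hi' (by rw [hz, hz'])
      | false => exact h1 (yesE u h4 c ρ z z' hz hz')
    | false =>
      cases hz' : z' i with
      | true => exact h2 (yesE u h4 c ρ z' z hz' hz)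
      | false => exact hi' (by rw [hz, hz'])
  · intro r ρ z z' h
    exact hU r _ (validE h4 hn u c ρ z z') h
  · intro ρ z
    exact hc _ (validE h4 hn u c ρ z z) (noE h4 u c ρ z)

/-- One vertex. -/
theorem ex_vertex (k n w : ℕ) (hw : n ^ 300 < 2 ^ (w + 1)) (u : Fin n) (R : Type) [Fintype R]
    [Nonempty R] (U : R → Circ (Sym2 (Fin n) × Pl w))
    (hU : ∀ r x, Valid x → (U r).Val x (U r).out → ¬ Yes x)
    (hc : ∀ x, Valid x → ¬ Yes x →
      Nat.card R ≤ 2 ^ (n / 2 ^ (60 * (k + 3))) * Nat.card {r // (U r).Val x (U r).out})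
    (hd : ∀ r, ∃ d : (U r).G → Sym2 (Fin n) × Pl w → ℕ, IsDeg (U r) id d ∧
      ∑ v, d (U r).out (s(u, v), some (some 0)) ≤ k * n) :
    ∃ r, n ≤ 2 ^ (60 * (k + 3)) * (Nat.log 2 (Fintype.card (U r).G) + 1) := by
  classical
  have hk : k + 1 ≤ 2 ^ k := Nat.lt_two_pow_self
  have hpow : 2 ^ (60 * (k + 3)) = 2 ^ 60 * 2 ^ (60 * (k + 2)) := by
    rw [← pow_add]; congr 1; ring
  have hbig : k + 2 ≤ 2 ^ (60 * (k + 3)) := by
    calc k + 2 ≤ 2 ^ k * 2 ^ 1 := by omega
      _ = 2 ^ (k + 1) := by rw [pow_add]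
      _ ≤ _ := Nat.pow_le_pow_right (by norm_num) (by omega)
  rcases Nat.lt_or_ge n (k + 2) with hn | hn
  · obtain ⟨r⟩ := (inferInstance : Nonempty R)
    exact ⟨r, (hn.le.trans hbig).trans (Nat.le_mul_of_pos_right _ (by omega))⟩
  have h4 : 4 < 2 ^ (w + 1) := by
    refine lt_of_le_of_lt ?_ hw
    calc 4 = 2 ^ 2 := by norm_num
      _ ≤ 2 ^ 300 := Nat.pow_le_pow_right (by norm_num) (by norm_num)
      _ ≤ n ^ 300 := Nat.pow_le_pow_left (by omega) _
  obtain ⟨n', rfl⟩ : ∃ n', n = n' + 1 := ⟨n - 1, by omega⟩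
  have hpos : 0 < 2 ^ (60 * (k + 2)) := Nat.two_pow_pos _
  have hq : (n' + 1) / 2 ^ (60 * (k + 3)) ≤ n' / 2 ^ (60 * (k + 1 + 1)) := by
    rw [Nat.le_div_iff_mul_le (Nat.two_pow_pos _)]
    have h1 : (n' + 1) / 2 ^ (60 * (k + 3)) * 2 ^ (60 * (k + 3)) ≤ n' + 1 :=
      Nat.div_mul_le_self _ _
    have h2 : (n' + 1) / 2 ^ (60 * (k + 3)) * (2 * 2 ^ (60 * (k + 2))) ≤ n' + 1 := by
      refine le_trans (Nat.mul_le_mul_left _ ?_) h1
      rw [hpow]
      exact Nat.mul_le_mul_right _ (by norm_num)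
    have e1 : 60 * (k + 1 + 1) = 60 * (k + 2) := by ring
    rw [e1]
    have h3 : (n' + 1) / 2 ^ (60 * (k + 3)) * (2 * 2 ^ (60 * (k + 2))) =
        2 * ((n' + 1) / 2 ^ (60 * (k + 3)) * 2 ^ (60 * (k + 2))) := by ring
    rw [h3] at h2
    omega
  obtain ⟨r, hr⟩ := ex_row (k + 1) n' w h4 u R U (by omega) hU
    (fun x hx hx' => (hc x hx hx').trans
      (Nat.mul_le_mul_right _ (Nat.pow_le_pow_right (by norm_num) hq))) (fun r => by
      obtain ⟨d, hd1, hd2⟩ := hd r
      refine ⟨_, deg_comp hd1 (pl u), ?_⟩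
      have h1 : ∑ v, d (U r).out (pl u v) ≤ ∑ v, d (U r).out (s(u, v), some (some 0)) := by
        rw [Fin.sum_univ_succAbove _ u]
        unfold pl row
        exact Nat.le_add_left _ _
      refine h1.trans (hd2.trans ?_)
      nlinarith)
  refine ⟨r, ?_⟩
  have e1 : 60 * (k + 1 + 1) = 60 * (k + 2) := by ring
  rw [e1] at hr
  rw [hpow]
  have h5 : 1 ≤ 2 ^ (60 * (k + 2)) * (Nat.log 2 (Fintype.card (U r).G) + 1) :=
    Nat.mul_pos hpos (by omega)
  nlinarith

/-- All last bits. -/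
theorem ex_total (k n w : ℕ) (hw : n ^ 300 < 2 ^ (w + 1)) (U : Circ (Sym2 (Fin n) × Pl w))
    (hU : ∀ x, Valid x → (U.Val x U.out ↔ ¬ Yes x))
    (hd : ∃ d : U.G → Sym2 (Fin n) × Pl w → ℕ, IsDeg U id d ∧
      ∑ e, d U.out (e, some (some 0)) ≤ k * n ^ 2) :
    n ≤ 2 ^ (60 * (2 * k + 3)) * (Nat.log 2 (Fintype.card U.G) + 1) := by
  classical
  rcases Nat.eq_zero_or_pos n with hn | hn
  · exact hn.le.trans (Nat.zero_le _)
  obtain ⟨d, hd1, hd2⟩ := hd
  have h1 : ∑ u : Fin n, ∑ v : Fin n, d U.out (s(u, v), some (some 0)) ≤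
      2 * ∑ e, d U.out (e, some (some 0)) := by
    rw [← Fintype.sum_prod_type']
    rw [← sum_fiberwise (univ : Finset (Fin n × Fin n)) (fun x => s(x.1, x.2))
      (fun x => d U.out (s(x.1, x.2), some (some 0))), mul_sum]
    refine sum_le_sum (fun e _ => ?_)
    have h2 : ∑ x ∈ univ.filter (fun x : Fin n × Fin n => s(x.1, x.2) = e),
        d U.out (s(x.1, x.2), some (some 0)) =
        ∑ x ∈ univ.filter (fun x : Fin n × Fin n => s(x.1, x.2) = e),
          d U.out (e, some (some 0)) :=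
      sum_congr rfl (fun x hx => by rw [(mem_filter.1 hx).2])
    rw [h2, sum_const, smul_eq_mul]
    apply Nat.mul_le_mul_right
    induction e with
    | _ x y =>
      have h3 : univ.filter (fun z : Fin n × Fin n => s(z.1, z.2) = s(x, y)) ⊆
          {(x, y), (y, x)} := by
        intro z hz
        have := (mem_filter.1 hz).2
        rw [Sym2.eq_iff] at this
        rw [mem_insert, mem_singleton]
        rcases this with ⟨h4, h5⟩ | ⟨h4, h5⟩
        · exact Or.inl (Prod.ext h4 h5)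
        · exact Or.inr (Prod.ext h4 h5)
      exact (card_le_card h3).trans card_le_two
  obtain ⟨u, hu⟩ : ∃ u : Fin n, ∑ v, d U.out (s(u, v), some (some 0)) ≤ 2 * k * n := by
    by_contra hcon
    push Not at hcon
    have h2 : ∑ u : Fin n, (2 * k * n) <
        ∑ u : Fin n, ∑ v : Fin n, d U.out (s(u, v), some (some 0)) := by
      refine sum_lt_sum_of_nonempty ?_ (fun u _ => hcon u)
      exact ⟨⟨0, hn⟩, mem_univ _⟩
    rw [sum_const, card_univ, Fintype.card_fin, smul_eq_mul] at h2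
    have h3 : n * (2 * k * n) = 2 * (k * n ^ 2) := by ring
    omega
  obtain ⟨r, hr⟩ := ex_vertex (2 * k) n w hw u Unit (fun _ => U) (fun _ x hx h => (hU x hx).1 h)
    (fun x hx h => by
      have h2 : Nat.card {r : Unit // U.Val x U.out} = 1 := by
        rw [Nat.card_eq_one_iff_unique]
        exact ⟨⟨fun a b => Subtype.ext rfl⟩, ⟨⟨(), (hU x hx).2 h⟩⟩⟩
      rw [h2, mul_one, Nat.card_unique]
      exact Nat.one_le_two_pow) (fun _ => ⟨d, hd1, hu⟩)
  exact hr

end Pool.Agent.W896.FD.ExTri
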