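import Pool.Agent.W896.FD.P6

/-!
# Graph isomorphism and circuits of small formal degree
-/

set_option autoImplicit false

open Finset

namespace Pool.Agent.W896.FD

open Pool.Agent.W896.RK Pool.Agent.W896.HP

variable {b r n : ℕ}

/-- The symmetry of a block. -/
def sw : Equiv.Perm (Fin 6) := (Equiv.swap 0 2) * (Equiv.swap 1 3)

theorem sw_tb : ∀ x y : Fin 6, tb true true (sw x) (sw y) = tb false false x y := by decide

/-- All choices of the states give isomorphic graphs. -/
theorem state_iso (z : Fin b → Bool) :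
    Nonempty (Gz (cc b r) (base b r) z z ≃g
      Gz (cc b r) (base b r) (fun _ => true) (fun _ => true)) := by
  refine ⟨⟨Equiv.sumCongr (Equiv.prodCongrRight (fun i => if z i = true then 1 else sw))
    (Equiv.refl _), ?_⟩⟩
  rintro (⟨i, x⟩ | u) (⟨j, y⟩ | v)
  · simp only [Equiv.sumCongr_apply, Sum.map_inl, Equiv.prodCongrRight_apply]
    rw [adj_ll, adj_ll]
    constructor
    · rintro ⟨rfl, h⟩
      refine ⟨rfl, ?_⟩
      cases hz : z i with
      | true => simpa [hz] using h
      | false =>
        rw [hz] at h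
        simp only [Bool.false_eq_true, if_false] at h
        rw [sw_tb] at h
        exact h
    · rintro ⟨rfl, h⟩
      refine ⟨rfl, ?_⟩
      cases hz : z i with
      | true => simpa [hz] using h
      | false =>
        rw [hz] at h
        simp only [Bool.false_eq_true, if_false]
        rw [sw_tb]
        exact h
  · exact iff_of_false adj_lr adj_lr
  · exact iff_of_false (fun h => adj_lr h.symm) (fun h => adj_lr h.symm)
  · exact adj_rr.trans adj_rr.symm

/-- The bits of two graphs. -/
noncomputable def pairBits (G H : SimpleGraph (Fin n)) : Bool × Sym2 (Fin n) → Bool :=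
  fun v => bits (if v.1 = true then H else G) v.2

theorem gi_final (k n : ℕ) (R : Type) [Fintype R] [Nonempty R]
    (U : R → Circ (Bool × Sym2 (Fin n)))
    (hU : ∀ r (G H : SimpleGraph (Fin n)), (U r).Val (pairBits G H) (U r).out →
      Nonempty (G ≃g H))
    (hc : ∀ G H : SimpleGraph (Fin n), Nonempty (G ≃g H) →
      Nat.card R ≤ 2 ^ (n / 2 ^ (60 * (k + 1))) *
        Nat.card {r // (U r).Val (pairBits G H) (U r).out})
    (hd : ∀ r, ∃ d : (U r).G → Sym2 (Fin n) → ℕ, IsDeg (U r) (fun e => (false, e)) d ∧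
      ∑ e, d (U r).out e ≤ k * n ^ 2) :
    ∃ r, n ≤ 2 ^ (60 * (k + 1)) * (Nat.log 2 (Fintype.card (U r).G) + 1) := by
  classical
  obtain ⟨b, hb⟩ : ∃ b, b = n / 6 := ⟨_, rfl⟩
  obtain ⟨r, hr⟩ : ∃ r, r = n % 6 := ⟨_, rfl⟩
  have hcard : Fintype.card (WV b r) = Fintype.card (Fin n) := by
    rw [Fintype.card_sum, Fintype.card_prod, Fintype.card_fin, Fintype.card_fin,
      Fintype.card_fin, Fintype.card_fin]
    omega
  obtain ⟨φ⟩ : Nonempty (WV b r ≃ Fin n) := ⟨Fintype.equivOfCardEq hcard⟩
  obtain ⟨H, hH⟩ : ∃ H : SimpleGraph (Fin n), H =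
    (Gz (cc b r) (base b r) (fun _ => true) (fun _ => true)).map φ := ⟨_, rfl⟩
  have hp : Function.Injective (fun e : Sym2 (Fin n) => (false, e)) := fun e e' h =>
    (Prod.mk.inj h).2
  have hfill : ∀ G : SimpleGraph (Fin n), fill (fun e : Sym2 (Fin n) => (false, e))
      (fun v => bits H v.2) (bits G) = pairBits G H := by
    intro G
    funext v
    obtain ⟨s, e⟩ := v
    cases s with
    | false =>
      exact fill_apply hp _ _ e
    | true =>
      rw [fill_other _ _ (fun e' h => by simp at h)]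
      rfl
  refine final_graph k (b := b) (by omega) φ (cc b r) (base b r) hp (fun v => bits H v.2)
    (fun G => Nonempty (G ≃g H)) ?_ ?_ ?_ R U ?_ ?_ hd
  · rintro G ρ ⟨f⟩
    exact ⟨(SimpleGraph.Iso.map ρ G).symm.trans f⟩
  · intro z
    obtain ⟨f⟩ := state_iso (r := r) z
    rw [hH]
    exact ⟨((SimpleGraph.Iso.map φ _).symm.trans f).trans (SimpleGraph.Iso.map φ _)⟩
  · rintro z z' h ⟨f⟩
    have h1 := (cherry_mix (r := r) h).iso (SimpleGraph.Iso.map φ _)
    have h2 := h1.iso f
    rw [hH] at h2
    exact not_cherry (h2.iso (SimpleGraph.Iso.map φ _).symm)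
  · intro r G hG
    rw [hfill] at hG
    exact hU r G H hG
  · intro G hG
    have h1 := hc G H hG
    rw [hfill]
    exact h1

end Pool.Agent.W896.FD
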