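import Pool.Agent.W896.FD.BIS

/-!
# Two-prover games, and circuits of small formal degree
-/

set_option autoImplicit false
set_option maxHeartbeats 1000000

open Finset

namespace Pool.Agent.W896.FD.Games

open Pool.Agent.W896.RK Pool.Agent.W896.HP Pool.Agent.W896.FD Pool.Agent.W896.FD.Star
open Pool.Agent.W896.FD.Tri (Mt mt_symm mt_ne)
open Pool.Agent.W896.FD.MEq (gr0 gr2)

variable {n b d : ℕ}

/-- The bits of a game: questions `u`, `v`, answers `(a, a')` and `c`. -/
abbrev GI (n d : ℕ) := (Fin n × Fin n) × ((Bool × Fin d) × Bool)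

/-- For each pair of questions there is either no constraint or the constraint is a map of the
answers for `u` to those for `v` with preimages of size `d`. -/
def IsGame (x : GI n d → Bool) : Prop :=
  ∀ u v, (∀ a c, x ((u, v), (a, c)) = false) ∨
    ∃ π : Bool × Fin d → Bool, (∀ c, Nat.card {a // π a = c} = d) ∧
      ∀ a c, x ((u, v), (a, c)) = true ↔ π a = c

/-- Some answers violate at most `t` constraints. -/
def Viol (t : ℕ) (x : GI n d → Bool) : Prop :=
  ∃ (f : Fin n → Bool × Fin d) (g : Fin n → Bool),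
    Nat.card {p : Fin n × Fin n // (∃ a c, x (p, (a, c)) = true) ∧
      x (p, (f p.1, g p.2)) = false} ≤ t

/-- The free bits. -/
def clsG (x : GI n d) : Option (Fin n) := if x.1.1 = x.1.2 then some x.1.1 else none

/-- The signs. -/
def sgG (x : GI n d) : Bool := !(xor x.2.1.1 x.2.2)

open Classical in
/-- The fixed bits. -/
noncomputable def fxG (c : Fin b × Fin 4 ↪ Fin n) (ρ : Equiv.Perm (Fin n)) (x : GI n d) : Bool :=
  decide (Mt c ρ x.1.1 x.1.2) && !(xor x.2.1.1 x.2.2)

/-- The instance. -/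
noncomputable def insG (d : ℕ) (c : Fin b × Fin 4 ↪ Fin n)
    (ρ : Equiv.Perm (Fin n)) (z z' : Fin b → Bool) : GI n d → Bool :=
  inJ false clsG sgG (fun ρ => fxG c ρ) c ρ z z'

section

variable (c : Fin b × Fin 4 ↪ Fin n) (ρ : Equiv.Perm (Fin n)) (z z' : Fin b → Bool)

theorem ins_diag (v : Fin n) (a : Bool × Fin d) (e : Bool) :
    insG d c ρ z z' ((v, v), (a, e)) =
      xor (!(xor a.1 e)) (grS false c z z' (ρ.symm v)) := by
  have h : clsG (((v, v), (a, e)) : GI n d) = some v := if_pos rfl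
  unfold insG
  rw [inJ_some h]
  rfl

theorem ins_off {v w : Fin n} (hvw : v ≠ w) (a : Bool × Fin d) (e : Bool) :
    insG d c ρ z z' ((v, w), (a, e)) = true ↔ Mt c ρ v w ∧ a.1 = e := by
  classical
  have h : clsG (((v, w), (a, e)) : GI n d) = none := if_neg hvw
  unfold insG
  rw [inJ_none h]
  unfold fxG
  rw [Bool.and_eq_true, decide_eq_true_iff]
  cases a.1 <;> cases e <;> simp

theorem gr_trueF {u : Fin n} (h : grS false c z z' u = true) :
    ∃ i, u = c (i, 0) ∨ u = c (i, 2) := by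
  by_contra hcon
  push Not at hcon
  unfold grS at h
  rw [fill_other] at h
  · exact Bool.noConfusion h
  · rintro (i | i) hi
    · exact (hcon i).1 hi.symm
    · exact (hcon i).2 hi.symm

theorem card_fib (e : Bool) : Nat.card {a : Bool × Fin d // a.1 = e} = d := by
  have h : {a : Bool × Fin d // a.1 = e} ≃ Fin d :=
    ⟨fun a => a.1.2, fun i => ⟨(e, i), rfl⟩, fun ⟨⟨a1, a2⟩, ha⟩ => by cases ha; rfl, fun i => rfl⟩
  rw [Nat.card_congr h, Nat.card_eq_fintype_card, Fintype.card_fin]

theorem isGame : IsGame (insG d c ρ z z') := by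
  classical
  intro u v
  by_cases huv : u = v
  · right
    subst huv
    refine ⟨fun a => xor a.1 (grS false c z z' (ρ.symm u)), fun e => ?_, fun a e => ?_⟩
    · refine (Nat.card_congr (Equiv.subtypeEquivRight
        (p := fun a : Bool × Fin d => xor a.1 (grS false c z z' (ρ.symm u)) = e)
        (q := fun a => a.1 = xor e (grS false c z z' (ρ.symm u))) (fun a => ?_))).trans
        (card_fib (xor e (grS false c z z' (ρ.symm u))))
      obtain ⟨a1, a2⟩ := a
      cases a1 <;> cases e <;> cases grS false c z z' (ρ.symm u) <;> simp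
    · rw [ins_diag]
      obtain ⟨a1, a2⟩ := a
      cases a1 <;> cases e <;> cases grS false c z z' (ρ.symm u) <;> simp
  · by_cases hm : Mt c ρ u v
    · right
      refine ⟨fun a => a.1, fun e => card_fib e, fun a e => ?_⟩
      rw [ins_off c ρ z z' huv]
      exact ⟨fun h => h.2, fun h => ⟨hm, h⟩⟩
    · left
      intro a e
      by_contra h
      rw [Bool.not_eq_false, ins_off c ρ z z' huv] at h
      exact hm h.1

theorem viol_eq (hd : 0 < d) : Viol 0 (insG d c ρ z z) := by
  classical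
  refine ⟨fun v => (if ∃ i, v = ρ (c (i, 2)) then grS false c z z (ρ.symm v) else false, ⟨0, hd⟩),
    fun v => if ∃ i, v = ρ (c (i, 2)) then false else grS false c z z (ρ.symm v), ?_⟩
  apply le_of_eq
  rw [Nat.card_eq_zero]
  left
  refine ⟨fun ⟨⟨v, w⟩, ⟨a, e, h1⟩, h2⟩ => ?_⟩
  simp only at h1 h2
  by_cases hvw : v = w
  · subst hvw
    rw [ins_diag] at h2
    by_cases hq : ∃ i, v = ρ (c (i, 2))
    · simp only [hq, if_true] at h2
      cases h3 : grS false c z z (ρ.symm v) <;> rw [h3] at h2 <;> simp at h2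
    · simp only [hq, if_false] at h2
      cases h3 : grS false c z z (ρ.symm v) <;> rw [h3] at h2 <;> simp at h2
  · rw [ins_off c ρ z z hvw] at h1
    have h3 : insG d c ρ z z ((v, w), ((if ∃ i, v = ρ (c (i, 2)) then
        grS false c z z (ρ.symm v) else false, ⟨0, hd⟩), if ∃ i, w = ρ (c (i, 2)) then false else
          grS false c z z (ρ.symm w))) = true := by
      rw [ins_off c ρ z z hvw]
      refine ⟨h1.1, ?_⟩
      have hne : ∀ i j, ρ (c (i, 0)) ≠ ρ (c (j, 2)) := by
        intro i j h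
        have := c.injective (ρ.injective h)
        rw [Prod.mk.injEq] at this
        exact absurd this.2 (by decide)
      obtain ⟨i, ⟨h4, h5⟩ | ⟨h4, h5⟩⟩ := h1.1
      · have hq1 : ¬ ∃ j, v = ρ (c (j, 2)) := by
          rintro ⟨j, hj⟩
          exact hne i j (h4.symm.trans hj)
        have hq2 : ∃ j, w = ρ (c (j, 2)) := ⟨i, h5⟩
        simp only [hq1, hq2, if_true, if_false]
      · have hq1 : ∃ j, v = ρ (c (j, 2)) := ⟨i, h4⟩
        have hq2 : ¬ ∃ j, w = ρ (c (j, 2)) := by
          rintro ⟨j, hj⟩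
          exact hne i j (h5.symm.trans hj)
        simp only [hq1, hq2, if_true, if_false]
        rw [h4, h5, Equiv.symm_apply_apply, Equiv.symm_apply_apply, gr0, gr2]
    rw [h2] at h3
    exact Bool.noConfusion h3

theorem viol_lower {t : ℕ} (h : Viol t (insG d c ρ z z')) : dst z z' ≤ t := by
  classical
  obtain ⟨f, g, hfg⟩ := h
  refine le_trans ?_ hfg
  have key : ∀ i : {i // z i ≠ z' i}, ∃ p : {p : Fin n × Fin n //
      (∃ a e, insG d c ρ z z' (p, (a, e)) = true) ∧
        insG d c ρ z z' (p, (f p.1, g p.2)) = false},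
      p.1.1 = ρ (c (i.1, 0)) ∨ p.1.1 = ρ (c (i.1, 2)) := by
    rintro ⟨i, hi⟩
    by_contra hcon
    push Not at hcon
    have hm : Mt c ρ (ρ (c (i, 0))) (ρ (c (i, 2))) := ⟨i, Or.inl ⟨rfl, rfl⟩⟩
    have hno : ∀ u v, (u = ρ (c (i, 0)) ∨ u = ρ (c (i, 2))) →
        (∃ a e, insG d c ρ z z' ((u, v), (a, e)) = true) →
        insG d c ρ z z' ((u, v), (f u, g v)) = true := by
      intro u v hu he
      by_contra h
      rw [Bool.not_eq_true] at h
      have := hcon ⟨(u, v), he, h⟩
      simp only at this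
      rcases hu with hu | hu
      · exact this.1 hu
      · exact this.2 hu
    have h1 := hno _ (ρ (c (i, 0))) (Or.inl rfl) ⟨(false, (f (ρ (c (i, 0)))).2),
      grS false c z z' (ρ.symm (ρ (c (i, 0)))), by rw [ins_diag]; simp⟩
    have h2 := hno _ (ρ (c (i, 2))) (Or.inr rfl) ⟨(false, (f (ρ (c (i, 0)))).2),
      grS false c z z' (ρ.symm (ρ (c (i, 2)))), by rw [ins_diag]; simp⟩
    have h3 := hno _ (ρ (c (i, 2))) (Or.inl rfl) ⟨(false, (f (ρ (c (i, 0)))).2), false,
      (ins_off c ρ z z' (mt_ne c ρ hm) _ _).2 ⟨hm, rfl⟩⟩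
    have h4 := hno _ (ρ (c (i, 0))) (Or.inr rfl) ⟨(false, (f (ρ (c (i, 0)))).2), false,
      (ins_off c ρ z z' (mt_ne c ρ (mt_symm hm)) _ _).2 ⟨mt_symm hm, rfl⟩⟩
    rw [ins_diag, Equiv.symm_apply_apply, gr0] at h1
    rw [ins_diag, Equiv.symm_apply_apply, gr2] at h2
    rw [ins_off c ρ z z' (mt_ne c ρ hm)] at h3
    rw [ins_off c ρ z z' (mt_ne c ρ (mt_symm hm))] at h4
    rw [h3.2] at h1
    rw [h4.2] at h2
    apply hi
    revert h1 h2
    cases g (ρ (c (i, 0))) <;> cases g (ρ (c (i, 2))) <;> cases z i <;> cases z' i <;> simp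
  choose F hF using key
  have hinj : Function.Injective F := by
    intro i j hij
    have h1 := hF i
    rw [hij] at h1
    have h2 := hF j
    apply Subtype.ext
    rcases h1 with h1 | h1 <;> rcases h2 with h2 | h2 <;>
      · have h3 := c.injective (ρ.injective (h1.symm.trans h2))
        rw [Prod.mk.injEq] at h3
        exact h3.1
  have h5 := Nat.card_le_card_of_injective F hinj
  refine le_trans (le_of_eq ?_) h5
  unfold dst
  rw [Nat.card_eq_fintype_card, Fintype.card_subtype]

end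

/-- **Games**. -/
theorem games_main (k n d : ℕ) (hd : 0 < d) (R : Type) [Fintype R]
    [Nonempty R] (U : R → Circ (GI n d))
    (hU : ∀ r x, IsGame x → (U r).Val x (U r).out → Viol (n / 2 ^ (120 * (k + 1))) x)
    (hc : ∀ x, IsGame x → Viol 0 x →
      Nat.card R ≤ 2 ^ (n / 2 ^ (60 * (k + 1))) * Nat.card {r // (U r).Val x (U r).out})
    (hdeg : ∀ r, ∃ f : (U r).G → GI n d → ℕ, IsDeg (U r) id f ∧
      ∑ v, ∑ y, f (U r).out ((v, v), y) ≤ k * n) :
    ∃ r, n ≤ 2 ^ (60 * (k + 1)) * (Nat.log 2 (Fintype.card (U r).G) + 1) := by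
  classical
  obtain ⟨b, hb⟩ : ∃ b, b = n / 4 := ⟨_, rfl⟩
  have hb1 : n < 4 * (b + 1) := by rw [hb]; exact Nat.lt_mul_div_succ n (by norm_num)
  have hb2 : 4 * b ≤ n := by rw [hb]; exact Nat.mul_div_le _ _
  obtain ⟨c⟩ : Nonempty (Fin b × Fin 4 ↪ Fin n) := by
    apply Function.Embedding.nonempty_of_card_le
    rw [Fintype.card_prod, Fintype.card_fin, Fintype.card_fin, Fintype.card_fin]
    omega
  have h120 : 120 * (k + 1) = 2 * (60 * (k + 1)) := by ring
  refine finalJ (ν := false) k (b := b) (by omega) clsG sgG (fun ρ => fxG c ρ) c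
    (fun ρ z z' => Viol (n / 2 ^ (120 * (k + 1))) (insG d c ρ z z'))
    (n / 2 ^ (120 * (k + 1))) ?_ ?_ R U ?_ ?_ ?_
  · rw [h120]
    exact Pool.Agent.W896.FD.Gap.vol_le (by omega) hb2
  · rintro ρ z z' h ⟨h1, -⟩
    have h3 := viol_lower c ρ z z' h1
    omega
  · intro r ρ z z' h
    exact hU r _ (isGame c ρ z z') h
  · intro ρ z
    exact hc _ (isGame c ρ z z) (viol_eq c ρ z hd)
  · intro r
    obtain ⟨f, hf1, hf2⟩ := hdeg r
    refine ⟨f, hf1, le_trans ?_ hf2⟩
    calc ∑ v with clsG v ≠ none, f (U r).out v ≤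
        ∑ v ∈ (univ : Finset (Fin n × ((Bool × Fin d) × Bool))).image
          (fun y => (((y.1, y.1), y.2) : GI n d)), f (U r).out v := by
          apply sum_le_sum_of_subset
          rintro ⟨⟨i, j⟩, y⟩ hv
          rw [mem_filter] at hv
          have h1 := hv.2
          unfold clsG at h1
          by_cases hvv : i = j
          · rw [mem_image]
            exact ⟨(i, y), mem_univ _, by rw [hvv]⟩
          · simp only [hvv, if_false] at h1
            exact absurd rfl h1
      _ = ∑ y : Fin n × ((Bool × Fin d) × Bool), f (U r).out ((y.1, y.1), y.2) := sum_image (by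
          rintro ⟨i, y⟩ _ ⟨i', y'⟩ _ h
          simp only [Prod.mk.injEq] at h
          exact Prod.ext h.1.1 h.2)
      _ = ∑ v, ∑ y, f (U r).out ((v, v), y) := by rw [Fintype.sum_prod_type]

end Pool.Agent.W896.FD.Games
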