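import Pool.Agent.W896.FD.Gen2
import Pool.Agent.H545R2.HamCore

/-!
# Hamiltonicity and circuits of small formal degree: the gadgets
-/

set_option autoImplicit false
set_option maxHeartbeats 1000000

open Finset

namespace Pool.Agent.W896.FD.Ham

open Pool.Agent.W896.RK Pool.Agent.W896.HP Pool.Agent.W896.FD Pool.Agent.H545R2

/-- A cyclic enumeration of the vertices gives a Hamiltonian cycle. -/
theorem ham_of_fun {V : Type} [Fintype V] [DecidableEq V] {G : SimpleGraph V} {N : ℕ} (hN : 3 ≤ N)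
    (F : Fin N → V) (hF : Function.Bijective F)
    (hadj : ∀ i j : Fin N, j.val = i.val + 1 → G.Adj (F i) (F j))
    (hclose : ∀ i j : Fin N, i.val + 1 = N → j.val = 0 → G.Adj (F i) (F j)) :
    G.IsHamiltonian := by
  refine isHamiltonian_of_list (List.ofFn F) (List.nodup_ofFn.2 hF.1) ?_ (by simpa using hN) ?_ ?_
  · intro v
    rw [List.mem_ofFn]
    exact hF.2 v
  · rw [List.isChain_iff_getElem]
    intro i hi
    rw [List.length_ofFn] at hi
    rw [List.getElem_ofFn, List.getElem_ofFn]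
    exact hadj _ _ rfl
  · intro x hx y hy
    rw [List.getLast?_eq_getElem?, List.length_ofFn, List.getElem?_ofFn, dif_pos (by omega)] at hx
    rw [List.head?_eq_getElem?, List.getElem?_ofFn, dif_pos (by omega)] at hy
    simp only [Option.mem_def, Option.some.injEq] at hx hy
    rw [← hx, ← hy]
    exact hclose _ _ (by simp only; omega) rfl

theorem ham_map {V V' : Type} [Fintype V] [DecidableEq V] [Fintype V'] [DecidableEq V']
    {G : SimpleGraph V} {H : SimpleGraph V'} (f : G ≃g H) (h : G.IsHamiltonian) :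
    H.IsHamiltonian := by
  intro hne
  have hc : Fintype.card V = Fintype.card V' := Fintype.card_congr f.toEquiv
  obtain ⟨a, p, hp⟩ := h (by rw [hc]; exact hne)
  exact ⟨f a, p.map f.toHom, hp.map f.bijective⟩

variable {b r : ℕ}

/-- The vertices: blocks with five vertices, and `r` further vertices. -/
abbrev WH (b r : ℕ) := (Fin b × Fin 5) ⊕ Fin r

/-- The fixed pairs of a block. -/
def tab (x y : Fin 5) : Bool :=
  (x == 0 && y == 2) || (x == 2 && y == 0) || (x == 4 && y != 4) || (x != 4 && y == 4)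

/-- The pairs of a block with states. -/
def tb (p q : Bool) (x y : Fin 5) : Bool :=
  tab x y || (p && ((x == 0 && y == 1) || (x == 1 && y == 0))) ||
    (!q && ((x == 2 && y == 3) || (x == 3 && y == 2)))

/-- The adjacency of the base graph. -/
def baseAdj : WH b r → WH b r → Prop
  | .inl (i, x), .inl (j, y) => (i = j ∧ tab x y = true) ∨
      (j.val = i.val + 1 ∧ x = 3 ∧ y = 1) ∨ (i.val = j.val + 1 ∧ y = 3 ∧ x = 1)
  | .inl (i, x), .inr u => (i.val + 1 = b ∧ x = 3 ∧ u.val = 0) ∨ (i.val = 0 ∧ x = 1 ∧ u.val + 1 = r)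
  | .inr u, .inl (i, x) => (i.val + 1 = b ∧ x = 3 ∧ u.val = 0) ∨ (i.val = 0 ∧ x = 1 ∧ u.val + 1 = r)
  | .inr u, .inr v => v.val = u.val + 1 ∨ u.val = v.val + 1

/-- The base graph. -/
def base (b r : ℕ) : SimpleGraph (WH b r) where
  Adj := baseAdj
  symm := ⟨by
    rintro (⟨i, x⟩ | u) (⟨j, y⟩ | v) h
    · rcases h with ⟨h1, h2⟩ | h | h
      · refine Or.inl ⟨h1.symm, ?_⟩
        revert h2
        revert x y
        decide
      · exact Or.inr (Or.inr h)
      · exact Or.inr (Or.inl h)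
    · exact h
    · exact h
    · exact h.symm⟩
  loopless := ⟨by
    rintro (⟨i, x⟩ | u) h
    · rcases h with ⟨h1, h2⟩ | h | h
      · revert h2
        revert x
        decide
      · omega
      · omega
    · rcases h with h | h <;> omega⟩

/-- The vertices of the variable pairs. -/
def cc (b r : ℕ) : Fin b × Fin 4 ↪ WH b r where
  toFun x := .inl (x.1, ⟨x.2.val, by omega⟩)
  inj' := by
    rintro ⟨i, x⟩ ⟨j, y⟩ h
    have h1 := Sum.inl_injective h
    rw [Prod.mk.injEq] at h1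
    refine Prod.ext h1.1 (Fin.ext ?_)
    exact congrArg (fun v : Fin 5 => v.val) h1.2

theorem key1 : ∀ (q : Bool) (x y : Fin 5), ((x = 0 ∧ y = 1) ∨ (x = 1 ∧ y = 0)) →
    tb true q x y = true := by decide

theorem key2 : ∀ (p : Bool) (x y : Fin 5), ((x = 2 ∧ y = 3) ∨ (x = 3 ∧ y = 2)) →
    tb p false x y = true := by decide

theorem key3 : ∀ (p q : Bool) (x y : Fin 5), tb p q x y = true → x ≠ y := by decide

theorem key4 : ∀ (p q : Bool) (x y : Fin 5), tb p q x y = true →
    (p = true ∧ ((x = 0 ∧ y = 1) ∨ (x = 1 ∧ y = 0))) ∨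
      (q = false ∧ ((x = 2 ∧ y = 3) ∨ (x = 3 ∧ y = 2))) ∨ tab x y = true := by decide

theorem key5 : ∀ (x y : Fin 5), tab x y = true → ¬ ((x = 0 ∧ y = 1) ∨ (x = 1 ∧ y = 0)) := by
  decide

theorem key6 : ∀ (x y : Fin 5), tab x y = true → ¬ ((x = 2 ∧ y = 3) ∨ (x = 3 ∧ y = 2)) := by
  decide

theorem adj_ll {z z' : Fin b → Bool} {i j : Fin b} {x y : Fin 5} :
    (Gz (cc b r) (base b r) z z').Adj (.inl (i, x)) (.inl (j, y)) ↔
      (i = j ∧ tb (z i) (z' i) x y = true) ∨
      (j.val = i.val + 1 ∧ x = 3 ∧ y = 1) ∨ (i.val = j.val + 1 ∧ y = 3 ∧ x = 1) := by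
  rw [← SimpleGraph.mem_edgeSet, mem_Gz]
  have e1 : ∀ i', (s((Sum.inl (i, x) : WH b r), Sum.inl (j, y)) = s(cc b r (i', 0), cc b r (i', 1)))
      ↔ (i = i' ∧ j = i' ∧ ((x = 0 ∧ y = 1) ∨ (x = 1 ∧ y = 0))) := by
    intro i'
    change s((Sum.inl (i, x) : WH b r), Sum.inl (j, y)) = s(Sum.inl (i', 0), Sum.inl (i', 1)) ↔ _
    rw [Sym2.eq_iff]
    simp only [Sum.inl.injEq, Prod.mk.injEq]
    tauto
  have e2 : ∀ i', (s((Sum.inl (i, x) : WH b r), Sum.inl (j, y)) = s(cc b r (i', 2), cc b r (i', 3)))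
      ↔ (i = i' ∧ j = i' ∧ ((x = 2 ∧ y = 3) ∨ (x = 3 ∧ y = 2))) := by
    intro i'
    change s((Sum.inl (i, x) : WH b r), Sum.inl (j, y)) = s(Sum.inl (i', 2), Sum.inl (i', 3)) ↔ _
    rw [Sym2.eq_iff]
    simp only [Sum.inl.injEq, Prod.mk.injEq]
    tauto
  have e3 : s((Sum.inl (i, x) : WH b r), Sum.inl (j, y)) ∈ (base b r).edgeSet ↔
      ((i = j ∧ tab x y = true) ∨
      (j.val = i.val + 1 ∧ x = 3 ∧ y = 1) ∨ (i.val = j.val + 1 ∧ y = 3 ∧ x = 1)) := Iff.rfl
  have e4 : (s((Sum.inl (i, x) : WH b r), Sum.inl (j, y))).IsDiag ↔ (i = j ∧ x = y) := by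
    rw [Sym2.mk_isDiag_iff]
    simp only [Sum.inl.injEq, Prod.mk.injEq]
  simp only [e1, e2, e3, e4, ne_eq]
  constructor
  · rintro ⟨⟨i', ⟨rfl, rfl, h⟩, hz⟩ | ⟨i', ⟨rfl, rfl, h⟩, hz⟩ | ⟨⟨rfl, h⟩ | h, -⟩, hd⟩
    · refine Or.inl ⟨rfl, ?_⟩
      rw [hz]
      exact key1 _ _ _ h
    · refine Or.inl ⟨rfl, ?_⟩
      rw [hz]
      exact key2 _ _ _ h
    · refine Or.inl ⟨rfl, ?_⟩
      unfold tb
      rw [h]
      rfl
    · exact Or.inr h
  · rintro (⟨rfl, h⟩ | h)
    · have h2 := key3 _ _ _ _ h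
      rcases key4 _ _ _ _ h with h1 | h1 | h1
      · exact ⟨Or.inl ⟨i, ⟨rfl, rfl, h1.2⟩, h1.1⟩, fun h => h2 h.2⟩
      · exact ⟨Or.inr (Or.inl ⟨i, ⟨rfl, rfl, h1.2⟩, h1.1⟩), fun h => h2 h.2⟩
      · exact ⟨Or.inr (Or.inr ⟨Or.inl ⟨rfl, h1⟩, fun i' => ⟨fun h => key5 _ _ h1 h.2.2,
          fun h => key6 _ _ h1 h.2.2⟩⟩), fun h => h2 h.2⟩
    · have hij : i ≠ j := by
        rintro rfl
        rcases h with h | h <;> omega
      refine ⟨Or.inr (Or.inr ⟨Or.inr h, fun i' => ⟨?_, ?_⟩⟩), fun h => hij h.1⟩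
      · rintro ⟨h1, h2, -⟩; exact hij (h1.trans h2.symm)
      · rintro ⟨h1, h2, -⟩; exact hij (h1.trans h2.symm)

theorem adj_lr {z z' : Fin b → Bool} {i : Fin b} {x : Fin 5} {u : Fin r} :
    (Gz (cc b r) (base b r) z z').Adj (.inl (i, x)) (.inr u) ↔
      (i.val + 1 = b ∧ x = 3 ∧ u.val = 0) ∨ (i.val = 0 ∧ x = 1 ∧ u.val + 1 = r) := by
  rw [← SimpleGraph.mem_edgeSet, mem_Gz]
  have e3 : s((Sum.inl (i, x) : WH b r), Sum.inr u) ∈ (base b r).edgeSet ↔
      ((i.val + 1 = b ∧ x = 3 ∧ u.val = 0) ∨ (i.val = 0 ∧ x = 1 ∧ u.val + 1 = r)) := Iff.rfl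
  have e1 : ∀ x' y' : Fin b × Fin 5, s((Sum.inl (i, x) : WH b r), Sum.inr u) ≠
      s(Sum.inl x', Sum.inl y') := by
    intro x' y' h'
    rw [Sym2.eq_iff] at h'
    simp at h'
  constructor
  · rintro ⟨⟨i', h, -⟩ | ⟨i', h, -⟩ | ⟨h, -⟩, -⟩
    · exact absurd h (e1 (i', 0) (i', 1))
    · exact absurd h (e1 (i', 2) (i', 3))
    · exact e3.1 h
  · intro h
    refine ⟨Or.inr (Or.inr ⟨e3.2 h, fun i' => ⟨e1 (i', 0) (i', 1), e1 (i', 2) (i', 3)⟩⟩), ?_⟩
    rw [Sym2.mk_isDiag_iff]
    simp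

theorem adj_rr {z z' : Fin b → Bool} {u v : Fin r} :
    (Gz (cc b r) (base b r) z z').Adj (.inr u) (.inr v) ↔
      (v.val = u.val + 1 ∨ u.val = v.val + 1) := by
  rw [← SimpleGraph.mem_edgeSet, mem_Gz]
  have e3 : s((Sum.inr u : WH b r), Sum.inr v) ∈ (base b r).edgeSet ↔
      (v.val = u.val + 1 ∨ u.val = v.val + 1) := Iff.rfl
  have e1 : ∀ x' y' : Fin b × Fin 5, s((Sum.inr u : WH b r), Sum.inr v) ≠
      s(Sum.inl x', Sum.inl y') := by
    intro x' y' h'
    rw [Sym2.eq_iff] at h'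
    simp at h'
  constructor
  · rintro ⟨⟨i', h, -⟩ | ⟨i', h, -⟩ | ⟨h, -⟩, -⟩
    · exact absurd h (e1 (i', 0) (i', 1))
    · exact absurd h (e1 (i', 2) (i', 3))
    · exact e3.1 h
  · intro h
    refine ⟨Or.inr (Or.inr ⟨e3.2 h, fun i' => ⟨e1 (i', 0) (i', 1), e1 (i', 2) (i', 3)⟩⟩), ?_⟩
    rw [Sym2.mk_isDiag_iff]
    intro h'
    have h2 : u = v := Sum.inr_injective h'
    rw [h2] at h
    omega

/-- The order in which a block is run through. -/
def od (p : Bool) (t : Fin 5) : Fin 5 := if p then ![1, 0, 2, 4, 3] t else ![1, 4, 0, 2, 3] t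

theorem od_adj : ∀ (p : Bool) (s t : Fin 5), t.val = s.val + 1 →
    tb p p (od p s) (od p t) = true := by decide

theorem od_inj : ∀ (p : Bool) (s t : Fin 5), od p s = od p t → s = t := by decide

theorem od_last : ∀ (p : Bool) (s : Fin 5), s.val = 4 → od p s = 3 := by decide

theorem od_first : ∀ (p : Bool) (s : Fin 5), s.val = 0 → od p s = 1 := by decide

/-- The enumeration of the vertices. -/
def enum (z : Fin b → Bool) (t : Fin (5 * b + r)) : WH b r :=
  if h : t.val < 5 * b then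
    .inl (⟨t.val / 5, by omega⟩, od (z ⟨t.val / 5, by omega⟩) ⟨t.val % 5, by omega⟩)
  else .inr ⟨t.val - 5 * b, by have := t.isLt; omega⟩

theorem enum_inj (z : Fin b → Bool) : Function.Injective (enum (r := r) z) := by
  intro s t h
  unfold enum at h
  split_ifs at h with h1 h2 h2
  · have h3 := Sum.inl_injective h
    rw [Prod.mk.injEq] at h3
    have h4 : s.val / 5 = t.val / 5 := congrArg Fin.val h3.1
    have h5 := h3.2
    have e : (⟨s.val / 5, by omega⟩ : Fin b) = ⟨t.val / 5, by omega⟩ := Fin.ext h4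
    rw [e] at h5
    have h6 := congrArg Fin.val (od_inj _ _ _ h5)
    simp only at h6
    exact Fin.ext (by omega)
  · have h3 := congrArg Fin.val (Sum.inr_injective h)
    simp only at h3
    exact Fin.ext (by omega)

theorem enum_bij (z : Fin b → Bool) : Function.Bijective (enum (r := r) z) := by
  rw [Fintype.bijective_iff_injective_and_card]
  refine ⟨enum_inj z, ?_⟩
  rw [Fintype.card_fin, Fintype.card_sum, Fintype.card_prod, Fintype.card_fin, Fintype.card_fin,
    Fintype.card_fin]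
  ring

theorem ham_state (hb : 1 ≤ b) (hr : 1 ≤ r) (z : Fin b → Bool) :
    (Gz (cc b r) (base b r) z z).IsHamiltonian := by
  refine ham_of_fun (N := 5 * b + r) (by omega) (enum z) (enum_bij z) ?_ ?_
  · intro s t hst
    have hs := s.isLt
    have ht := t.isLt
    unfold enum
    by_cases h1 : t.val < 5 * b
    · have h2 : s.val < 5 * b := by omega
      rw [dif_pos h1, dif_pos h2, adj_ll]
      by_cases h3 : s.val % 5 = 4
      · refine Or.inr (Or.inl ⟨?_, ?_, ?_⟩)
        · simp only; omega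
        · exact od_last _ _ h3
        · exact od_first _ _ (by simp only; omega)
      · have e : (⟨t.val / 5, by omega⟩ : Fin b) = ⟨s.val / 5, by omega⟩ := Fin.ext (by
          simp only; omega)
        refine Or.inl ⟨e.symm, ?_⟩
        rw [e]
        exact od_adj _ _ _ (by simp only; omega)
    · by_cases h2 : s.val < 5 * b
      · rw [dif_neg h1, dif_pos h2, adj_lr]
        refine Or.inl ⟨?_, ?_, ?_⟩
        · simp only; omega
        · exact od_last _ _ (by simp only; omega)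
        · simp only; omega
      · rw [dif_neg h1, dif_neg h2, adj_rr]
        left
        simp only; omega
  · intro s t hs ht
    unfold enum
    rw [dif_neg (show ¬ s.val < 5 * b by omega), dif_pos (show t.val < 5 * b by omega)]
    rw [SimpleGraph.adj_comm, adj_lr]
    refine Or.inr ⟨?_, ?_, ?_⟩
    · simp only; omega
    · exact od_first _ _ (by simp only; omega)
    · simp only; omega

theorem nb0 : ∀ y : Fin 5, tb false true 0 y = true → y = 4 ∨ y = 2 := by decide
theorem nb2 : ∀ y : Fin 5, tb false true 2 y = true → y = 4 ∨ y = 0 := by decide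
theorem nb1 : ∀ y : Fin 5, tb false true 1 y = true → y = 4 := by decide

/-- A mixed graph is not Hamiltonian. -/
theorem not_ham {z z' : Fin b → Bool} (h : ∃ i, z i = false ∧ z' i = true) :
    ¬ (Gz (cc b r) (base b r) z z').IsHamiltonian := by
  intro hH
  obtain ⟨i, hz, hz'⟩ := h
  have h3 : 3 ≤ Fintype.card (WH b r) := by
    have := i.isLt
    rw [Fintype.card_sum, Fintype.card_prod, Fintype.card_fin, Fintype.card_fin, Fintype.card_fin]
    omega
  obtain ⟨σ, h1, h2, -⟩ := exists_perm_of_isHamiltonian h3 hH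
  have key : ∀ a w : WH b r, (∀ v, (Gz (cc b r) (base b r) z z').Adj a v →
      v = .inl (i, 4) ∨ v = w) → σ a = .inl (i, 4) ∨ σ (.inl (i, 4)) = a := by
    intro a w ha
    obtain ⟨a', rfl⟩ := σ.surjective a
    have h4 := ha _ (h1 (σ a'))
    have h5 := ha _ (h1 a').symm
    have h6 := h2 a'
    rcases h5 with h5 | h5
    · right; rw [← h5]
    · rcases h4 with h4 | h4
      · left; exact h4
      · exact absurd (h4.trans h5.symm) h6
  have k0 := key (.inl (i, 0)) (.inl (i, 2)) (by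
    rintro (⟨j, y⟩ | u) hv
    · rw [adj_ll] at hv
      rcases hv with ⟨rfl, hv⟩ | ⟨-, hv, -⟩ | ⟨-, -, hv⟩
      · rw [hz, hz'] at hv
        rcases nb0 y hv with rfl | rfl
        · exact Or.inl rfl
        · exact Or.inr rfl
      · exact absurd hv (by decide)
      · exact absurd hv (by decide)
    · rw [adj_lr] at hv
      rcases hv with ⟨-, hv, -⟩ | ⟨-, hv, -⟩
      · exact absurd hv (by decide)
      · exact absurd hv (by decide))
  have k2 := key (.inl (i, 2)) (.inl (i, 0)) (by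
    rintro (⟨j, y⟩ | u) hv
    · rw [adj_ll] at hv
      rcases hv with ⟨rfl, hv⟩ | ⟨-, hv, -⟩ | ⟨-, -, hv⟩
      · rw [hz, hz'] at hv
        rcases nb2 y hv with rfl | rfl
        · exact Or.inl rfl
        · exact Or.inr rfl
      · exact absurd hv (by decide)
      · exact absurd hv (by decide)
    · rw [adj_lr] at hv
      rcases hv with ⟨-, hv, -⟩ | ⟨-, hv, -⟩
      · exact absurd hv (by decide)
      · exact absurd hv (by decide))
  have k1 : σ (.inl (i, 1)) = .inl (i, 4) ∨ σ (.inl (i, 4)) = .inl (i, 1) := by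
    by_cases hi : i.val = 0
    · rcases Nat.eq_zero_or_pos r with hr | hr
      · subst hr
        refine key (.inl (i, 1)) (.inl (i, 4)) ?_
        rintro (⟨j, y⟩ | u) hv
        · rw [adj_ll] at hv
          rcases hv with ⟨rfl, hv⟩ | ⟨-, hv, -⟩ | ⟨hv, -, -⟩
          · rw [hz, hz'] at hv
            rw [nb1 y hv]
            exact Or.inl rfl
          · exact absurd hv (by decide)
          · omega
        · exact u.elim0
      · refine key (.inl (i, 1)) (.inr ⟨r - 1, by omega⟩) ?_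
        rintro (⟨j, y⟩ | u) hv
        · rw [adj_ll] at hv
          rcases hv with ⟨rfl, hv⟩ | ⟨-, hv, -⟩ | ⟨hv, -, -⟩
          · rw [hz, hz'] at hv
            rw [nb1 y hv]
            exact Or.inl rfl
          · exact absurd hv (by decide)
          · omega
        · rw [adj_lr] at hv
          rcases hv with ⟨-, hv, -⟩ | ⟨-, -, hv⟩
          · exact absurd hv (by decide)
          · right
            congr 1
            exact Fin.ext (by simp only; omega)
    · refine key (.inl (i, 1)) (.inl (⟨i.val - 1, by omega⟩, 3)) ?_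
      rintro (⟨j, y⟩ | u) hv
      · rw [adj_ll] at hv
        rcases hv with ⟨rfl, hv⟩ | ⟨-, hv, -⟩ | ⟨hv, hy, -⟩
        · rw [hz, hz'] at hv
          rw [nb1 y hv]
          exact Or.inl rfl
        · exact absurd hv (by decide)
        · right
          rw [hy]
          congr 2
          exact Fin.ext (by simp only; omega)
      · rw [adj_lr] at hv
        rcases hv with ⟨-, hv, -⟩ | ⟨hv, -, -⟩
        · exact absurd hv (by decide)
        · exact absurd hv hi
  have d01 : (Sum.inl (i, 0) : WH b r) ≠ .inl (i, 1) := by simp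
  have d02 : (Sum.inl (i, 0) : WH b r) ≠ .inl (i, 2) := by simp
  have d12 : (Sum.inl (i, 1) : WH b r) ≠ .inl (i, 2) := by simp
  rcases k0 with k0 | k0 <;> rcases k1 with k1 | k1 <;> rcases k2 with k2 | k2
  · exact d01 (σ.injective (k0.trans k1.symm))
  · exact d01 (σ.injective (k0.trans k1.symm))
  · exact d02 (σ.injective (k0.trans k2.symm))
  · exact d12 (k1.symm.trans k2)
  · exact d12 (σ.injective (k1.trans k2.symm))
  · exact d02 (k0.symm.trans k2)
  · exact d01 (k0.symm.trans k1)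
  · exact d01 (k0.symm.trans k1)

theorem ham_final (k n : ℕ) (R : Type) [Fintype R] [Nonempty R] (U : R → Circ (Sym2 (Fin n)))
    (hU : ∀ r (G : SimpleGraph (Fin n)), (U r).Val (bits G) (U r).out → G.IsHamiltonian)
    (hc : ∀ G : SimpleGraph (Fin n), G.IsHamiltonian →
      Nat.card R ≤ 2 ^ (n / 2 ^ (60 * (k + 1))) * Nat.card {r // (U r).Val (bits G) (U r).out})
    (hd : ∀ r, ∃ d : (U r).G → Sym2 (Fin n) → ℕ, IsDeg (U r) id d ∧
      ∑ e, d (U r).out e ≤ k * n ^ 2) :
    ∃ r, n ≤ 2 ^ (60 * (k + 1)) * (Nat.log 2 (Fintype.card (U r).G) + 1) := by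
  classical
  rcases Nat.lt_or_ge n 6 with hn | hn
  · obtain ⟨r⟩ := (inferInstance : Nonempty R)
    refine ⟨r, ?_⟩
    have h1 : 2 ^ 60 ≤ 2 ^ (60 * (k + 1)) := Nat.pow_le_pow_right (by norm_num) (by omega)
    calc n ≤ 2 ^ 60 := by omega
      _ ≤ 2 ^ (60 * (k + 1)) := h1
      _ ≤ _ := Nat.le_mul_of_pos_right _ (by omega)
  obtain ⟨b, hb⟩ : ∃ b, b = (n - 1) / 5 := ⟨_, rfl⟩
  obtain ⟨r, hr⟩ : ∃ r, r = n - 5 * b := ⟨_, rfl⟩
  have hcard : Fintype.card (WH b r) = Fintype.card (Fin n) := by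
    rw [Fintype.card_sum, Fintype.card_prod, Fintype.card_fin, Fintype.card_fin,
      Fintype.card_fin, Fintype.card_fin]
    omega
  obtain ⟨φ⟩ : Nonempty (WH b r ≃ Fin n) := ⟨Fintype.equivOfCardEq hcard⟩
  have hp : Function.Injective (id : Sym2 (Fin n) → Sym2 (Fin n)) := Function.injective_id
  have hfill : ∀ G : SimpleGraph (Fin n), fill (id : Sym2 (Fin n) → Sym2 (Fin n))
      (fun _ => false) (bits G) = bits G := by
    intro G
    funext e
    exact fill_apply hp _ _ e
  refine final_graphB k n (b := b) le_rfl (by omega) φ (cc b r) (base b r) hp (fun _ => false)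
    (fun G => G.IsHamiltonian) ?_ ?_ ?_ R U ?_ ?_ hd
  · intro G ρ h
    exact ham_map (SimpleGraph.Iso.map ρ G) h
  · intro z
    exact ham_map (SimpleGraph.Iso.map φ _) (ham_state (by omega) (by omega) z)
  · intro z z' h hH
    exact not_ham h (ham_map (SimpleGraph.Iso.map φ _).symm hH)
  · intro r G h
    rw [hfill] at h
    exact hU r G h
  · intro G h
    rw [hfill]
    exact hc G h

end Pool.Agent.W896.FD.Ham
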