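import Pool.Agent.W896.FD.MEq

/-!
# Verifying a matrix-vector product, and circuits of small formal degree
-/

set_option autoImplicit false
set_option maxHeartbeats 1000000

open Finset

namespace Pool.Agent.W896.FD.MatVec

open Pool.Agent.W896.RK Pool.Agent.W896.HP Pool.Agent.W896.FD Pool.Agent.W896.FD.Star
open Pool.Agent.W896.FD.Tri (Mt mt_symm)
open Pool.Agent.W896.FD.OV (pt pt_eq pt_other pt_pt)
open Pool.Agent.W896.FD.MEq (gr0 gr2)

variable {n b : ℕ}

/-- The vector `w` is the product of the matrix and the vector `v` over the field with two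
elements. -/
def MulF (x : (Fin n × Fin n) ⊕ (Bool × Fin n) → Bool) : Prop :=
  ∀ i, (∑ j, (if x (.inl (i, j)) = true ∧ x (.inr (false, j)) = true then (1 : ZMod 2) else 0)) =
    if x (.inr (true, i)) = true then 1 else 0

/-- The vector `w` is the Boolean product of the matrix and the vector `v`. -/
def MulB (x : (Fin n × Fin n) ⊕ (Bool × Fin n) → Bool) : Prop :=
  ∀ i, x (.inr (true, i)) = true ↔ ∃ j, x (.inl (i, j)) = true ∧ x (.inr (false, j)) = true

/-- The property is what it should be for permutation matrices. -/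
def Good (V : ((Fin n × Fin n) ⊕ (Bool × Fin n) → Bool) → Prop) : Prop :=
  ∀ (τ : Fin n → Fin n) (x : (Fin n × Fin n) ⊕ (Bool × Fin n) → Bool),
    (∀ i j, x (.inl (i, j)) = true ↔ j = τ i) →
    (V x ↔ ∀ i, x (.inr (true, i)) = x (.inr (false, τ i)))

theorem good_mulF : Good (n := n) MulF := by
  classical
  intro τ x hx
  refine forall_congr' (fun i => ?_)
  have h1 : (∑ j, (if x (.inl (i, j)) = true ∧ x (.inr (false, j)) = true then (1 : ZMod 2)
      else 0)) = if x (.inr (false, τ i)) = true then 1 else 0 := by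
    rw [Finset.sum_eq_single (τ i)]
    · simp only [(hx i (τ i)).2 rfl, true_and]
    · intro j _ hj
      have h2 : ¬ (x (.inl (i, j)) = true) := fun h => hj ((hx i j).1 h)
      exact if_neg (fun h => h2 h.1)
    · intro h
      exact absurd (mem_univ _) h
  rw [h1]
  cases x (.inr (true, i)) <;> cases x (.inr (false, τ i)) <;> simp

theorem good_mulB : Good (n := n) MulB := by
  intro τ x hx
  refine forall_congr' (fun i => ?_)
  have h1 : (∃ j, x (.inl (i, j)) = true ∧ x (.inr (false, j)) = true) ↔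
      x (.inr (false, τ i)) = true := by
    constructor
    · rintro ⟨j, h2, h3⟩
      rw [(hx i j).1 h2] at h3
      exact h3
    · intro h
      exact ⟨τ i, (hx i _).2 rfl, h⟩
  rw [h1]
  exact (Bool.eq_iff_iff).symm

/-- The free bits. -/
def clsV (x : (Fin n × Fin n) ⊕ (Bool × Fin n)) : Option (Fin n) :=
  Sum.elim (fun _ => none) (fun y => some y.2) x

/-- The fixed bits. -/
noncomputable def fxV (c : Fin b × Fin 4 ↪ Fin n) (ρ : Equiv.Perm (Fin n))
    (x : (Fin n × Fin n) ⊕ (Bool × Fin n)) : Bool :=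
  Sum.elim (fun y => decide (y.2 = pt c ρ y.1)) (fun _ => false) x

/-- The instance. -/
noncomputable def insV (c : Fin b × Fin 4 ↪ Fin n) (ρ : Equiv.Perm (Fin n))
    (z z' : Fin b → Bool) : (Fin n × Fin n) ⊕ (Bool × Fin n) → Bool :=
  inI false clsV (fun ρ => fxV c ρ) c ρ z z'

section

variable (c : Fin b × Fin 4 ↪ Fin n) (ρ : Equiv.Perm (Fin n)) (z z' : Fin b → Bool)

theorem ins_vec (s : Bool) (i : Fin n) :
    insV c ρ z z' (.inr (s, i)) = grS false c z z' (ρ.symm i) := rfl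

theorem ins_mat (i j : Fin n) : insV c ρ z z' (.inl (i, j)) = true ↔ j = pt c ρ i := by
  change decide (j = pt c ρ i) = true ↔ _
  exact decide_eq_true_iff

theorem ver_eq {V : ((Fin n × Fin n) ⊕ (Bool × Fin n) → Bool) → Prop} (hV : Good V) :
    V (insV c ρ z z) := by
  rw [hV (pt c ρ) _ (ins_mat c ρ z z)]
  intro i
  rw [ins_vec, ins_vec]
  by_cases h : ∃ v, Mt c ρ i v
  · obtain ⟨v, hv⟩ := h
    rw [pt_eq hv]
    obtain ⟨q, ⟨h1, h2⟩ | ⟨h1, h2⟩⟩ := hv
    · rw [h1, h2, Equiv.symm_apply_apply, Equiv.symm_apply_apply, gr0, gr2]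
    · rw [h1, h2, Equiv.symm_apply_apply, Equiv.symm_apply_apply, gr0, gr2]
  · rw [pt_other h]

theorem not_ver {V : ((Fin n × Fin n) ⊕ (Bool × Fin n) → Bool) → Prop} (hV : Good V)
    {i : Fin b} (hz : z i ≠ z' i) : ¬ V (insV c ρ z z') := by
  rw [hV (pt c ρ) _ (ins_mat c ρ z z')]
  intro h
  have h1 := h (ρ (c (i, 0)))
  have h2 : pt c ρ (ρ (c (i, 0))) = ρ (c (i, 2)) := pt_eq ⟨i, Or.inl ⟨rfl, rfl⟩⟩
  rw [h2, ins_vec, ins_vec, Equiv.symm_apply_apply, Equiv.symm_apply_apply, gr0, gr2] at h1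
  exact hz h1

end

/-- **Verifying a product**, few reads of the vectors. -/
theorem mv_main (k n : ℕ) {V : ((Fin n × Fin n) ⊕ (Bool × Fin n) → Bool) → Prop}
    (hV : Good V) (R : Type) [Fintype R] [Nonempty R]
    (U : R → Circ ((Fin n × Fin n) ⊕ (Bool × Fin n)))
    (hU : ∀ r x, (U r).Val x (U r).out → V x)
    (hc : ∀ x, V x →
      Nat.card R ≤ 2 ^ (n / 2 ^ (60 * (k + 1))) * Nat.card {r // (U r).Val x (U r).out})
    (hdeg : ∀ r, ∃ f : (U r).G → (Fin n × Fin n) ⊕ (Bool × Fin n) → ℕ, IsDeg (U r) id f ∧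
      ∑ i, (f (U r).out (.inr (false, i)) + f (U r).out (.inr (true, i))) ≤ k * n) :
    ∃ r, n ≤ 2 ^ (60 * (k + 1)) * (Nat.log 2 (Fintype.card (U r).G) + 1) := by
  classical
  obtain ⟨b, hb⟩ : ∃ b, b = n / 4 := ⟨_, rfl⟩
  have hb1 : n < 4 * (b + 1) := by rw [hb]; exact Nat.lt_mul_div_succ n (by norm_num)
  have hb2 : 4 * b ≤ n := by rw [hb]; exact Nat.mul_div_le _ _
  obtain ⟨c⟩ : Nonempty (Fin b × Fin 4 ↪ Fin n) := by
    apply Function.Embedding.nonempty_of_card_le
    rw [Fintype.card_prod, Fintype.card_fin, Fintype.card_fin, Fintype.card_fin]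
    omega
  refine finalI (ν := false) k (b := b) (by omega) clsV (fun ρ => fxV c ρ) c
    (fun ρ z z' => V (insV c ρ z z')) 0 ?_ ?_ R U ?_ ?_ ?_
  · rw [vol_zero]
    exact Nat.one_le_two_pow
  · rintro ρ z z' h ⟨h1, h2⟩
    unfold dst at h
    obtain ⟨i, hi⟩ := card_pos.1 h
    exact not_ver c ρ z z' hV (mem_filter.1 hi).2 h1
  · intro r ρ z z' h
    exact hU r _ h
  · intro ρ z
    exact hc _ (ver_eq c ρ z hV)
  · intro r
    obtain ⟨f, hf1, hf2⟩ := hdeg r
    refine ⟨f, hf1, le_trans (le_of_eq ?_) hf2⟩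
    rw [sum_filter, Fintype.sum_sum_type]
    have h1 : ∑ y : Fin n × Fin n, (if clsV (Sum.inl y : (Fin n × Fin n) ⊕ (Bool × Fin n)) ≠ none
        then f (U r).out (Sum.inl y) else 0) = 0 := by
      apply sum_eq_zero
      intro y _
      exact if_neg (fun h => h rfl)
    have h2 : ∑ y : Bool × Fin n, (if clsV (Sum.inr y : (Fin n × Fin n) ⊕ (Bool × Fin n)) ≠ none
        then f (U r).out (Sum.inr y) else 0) = ∑ y : Bool × Fin n, f (U r).out (Sum.inr y) := by
      refine sum_congr rfl (fun y _ => ?_)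
      exact if_pos (fun h => by cases h)
    rw [h1, h2, zero_add, Fintype.sum_prod_type, Fintype.sum_bool, ← sum_add_distrib]
    exact sum_congr rfl (fun i _ => add_comm _ _)

end Pool.Agent.W896.FD.MatVec
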