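import Pool.Agent.W896.FD.Graph

/-!
# Paths with six vertices: graph isomorphism and perfect matchings
-/

set_option autoImplicit false

open Finset

namespace Pool.Agent.W896.FD

open Pool.Agent.W896.RK Pool.Agent.W896.HP

variable {b r : ℕ}

/-- The vertices: blocks with six vertices, and `r` further vertices. -/
abbrev WV (b r : ℕ) := (Fin b × Fin 6) ⊕ Fin r

/-- The fixed pairs of a block. -/
def tab (x y : Fin 6) : Bool :=
  (x == 0 && y == 5) || (x == 5 && y == 0) || (x == 2 && y == 5) || (x == 5 && y == 2) ||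
  (x == 1 && y == 4) || (x == 4 && y == 1) || (x == 3 && y == 4) || (x == 4 && y == 3)

/-- The pairs of a block with states. -/
def tb (p q : Bool) (x y : Fin 6) : Bool :=
  tab x y || (p && ((x == 0 && y == 1) || (x == 1 && y == 0))) ||
    (!q && ((x == 2 && y == 3) || (x == 3 && y == 2)))

/-- The adjacency of the base graph. -/
def baseAdj : WV b r → WV b r → Prop
  | .inl (i, x), .inl (j, y) => i = j ∧ tab x y = true
  | .inr u, .inr v => u ≠ v ∧ u.val / 2 = v.val / 2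
  | _, _ => False

/-- The base graph. -/
def base (b r : ℕ) : SimpleGraph (WV b r) where
  Adj := baseAdj
  symm := ⟨by
    rintro (⟨i, x⟩ | u) (⟨j, y⟩ | v) h
    · obtain ⟨h1, h2⟩ := h
      refine ⟨h1.symm, ?_⟩
      revert h2
      revert x y
      decide
    · exact h
    · exact h
    · exact ⟨h.1.symm, h.2.symm⟩⟩
  loopless := ⟨by
    rintro (⟨i, x⟩ | u) h
    · obtain ⟨h1, h2⟩ := h
      revert h2
      revert x
      decide
    · exact h.1 rfl⟩

/-- The vertices of the variable pairs. -/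
def cc (b r : ℕ) : Fin b × Fin 4 ↪ WV b r where
  toFun x := .inl (x.1, ⟨x.2.val, by omega⟩)
  inj' := by
    rintro ⟨i, x⟩ ⟨j, y⟩ h
    have h' := Sum.inl_injective h
    rw [Prod.mk.injEq] at h'
    have h2 : x.val = y.val := by simpa using congrArg Fin.val h'.2
    exact Prod.ext h'.1 (Fin.ext h2)

theorem key1 : ∀ (q : Bool) (x y : Fin 6), ((x = 0 ∧ y = 1) ∨ (x = 1 ∧ y = 0)) →
    tb true q x y = true := by decide

theorem key2 : ∀ (p : Bool) (x y : Fin 6), ((x = 2 ∧ y = 3) ∨ (x = 3 ∧ y = 2)) →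
    tb p false x y = true := by decide

theorem key3 : ∀ (p q : Bool) (x y : Fin 6), tb p q x y = true → x ≠ y := by decide

theorem key4 : ∀ (p q : Bool) (x y : Fin 6), tb p q x y = true →
    (p = true ∧ ((x = 0 ∧ y = 1) ∨ (x = 1 ∧ y = 0))) ∨
      (q = false ∧ ((x = 2 ∧ y = 3) ∨ (x = 3 ∧ y = 2))) ∨ tab x y = true := by
  intro p q x y h
  revert x y p q
  decide

theorem key5 : ∀ (x y : Fin 6), tab x y = true → ¬ ((x = 0 ∧ y = 1) ∨ (x = 1 ∧ y = 0)) := by
  decide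

theorem key6 : ∀ (x y : Fin 6), tab x y = true → ¬ ((x = 2 ∧ y = 3) ∨ (x = 3 ∧ y = 2)) := by
  decide

theorem adj_ll {z z' : Fin b → Bool} {i j : Fin b} {x y : Fin 6} :
    (Gz (cc b r) (base b r) z z').Adj (.inl (i, x)) (.inl (j, y)) ↔
      i = j ∧ tb (z i) (z' i) x y = true := by
  rw [← SimpleGraph.mem_edgeSet, mem_Gz]
  have e1 : ∀ i', (s((Sum.inl (i, x) : WV b r), Sum.inl (j, y)) = s(cc b r (i', 0), cc b r (i', 1)))
      ↔ (i = i' ∧ j = i' ∧ ((x = 0 ∧ y = 1) ∨ (x = 1 ∧ y = 0))) := by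
    intro i'
    change s((Sum.inl (i, x) : WV b r), Sum.inl (j, y)) = s(Sum.inl (i', 0), Sum.inl (i', 1)) ↔ _
    rw [Sym2.eq_iff]
    simp only [Sum.inl.injEq, Prod.mk.injEq]
    tauto
  have e2 : ∀ i', (s((Sum.inl (i, x) : WV b r), Sum.inl (j, y)) = s(cc b r (i', 2), cc b r (i', 3)))
      ↔ (i = i' ∧ j = i' ∧ ((x = 2 ∧ y = 3) ∨ (x = 3 ∧ y = 2))) := by
    intro i'
    change s((Sum.inl (i, x) : WV b r), Sum.inl (j, y)) = s(Sum.inl (i', 2), Sum.inl (i', 3)) ↔ _
    rw [Sym2.eq_iff]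
    simp only [Sum.inl.injEq, Prod.mk.injEq]
    tauto
  have e3 : s((Sum.inl (i, x) : WV b r), Sum.inl (j, y)) ∈ (base b r).edgeSet ↔
      i = j ∧ tab x y = true := Iff.rfl
  have e4 : (s((Sum.inl (i, x) : WV b r), Sum.inl (j, y))).IsDiag ↔ (i = j ∧ x = y) := by
    rw [Sym2.mk_isDiag_iff]
    simp only [Sum.inl.injEq, Prod.mk.injEq]
  simp only [e1, e2, e3, e4, ne_eq]
  constructor
  · rintro ⟨⟨i', ⟨rfl, rfl, h⟩, hz⟩ | ⟨i', ⟨rfl, rfl, h⟩, hz⟩ | ⟨⟨rfl, h⟩, -⟩, hd⟩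
    · refine ⟨rfl, ?_⟩
      rw [hz]
      exact key1 _ _ _ h
    · refine ⟨rfl, ?_⟩
      rw [hz]
      exact key2 _ _ _ h
    · refine ⟨rfl, ?_⟩
      unfold tb
      rw [h]
      rfl
  · rintro ⟨rfl, h⟩
    have h2 := key3 _ _ _ _ h
    rcases key4 _ _ _ _ h with h1 | h1 | h1
    · exact ⟨Or.inl ⟨i, ⟨rfl, rfl, h1.2⟩, h1.1⟩, fun h => h2 h.2⟩
    · exact ⟨Or.inr (Or.inl ⟨i, ⟨rfl, rfl, h1.2⟩, h1.1⟩), fun h => h2 h.2⟩
    · exact ⟨Or.inr (Or.inr ⟨⟨rfl, h1⟩, fun i' => ⟨fun h => key5 _ _ h1 h.2.2,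
        fun h => key6 _ _ h1 h.2.2⟩⟩), fun h => h2 h.2⟩

theorem adj_lr {z z' : Fin b → Bool} {x : Fin b × Fin 6} {u : Fin r} :
    ¬ (Gz (cc b r) (base b r) z z').Adj (.inl x) (.inr u) := by
  rw [← SimpleGraph.mem_edgeSet, mem_Gz]
  rintro ⟨⟨i', h, -⟩ | ⟨i', h, -⟩ | ⟨h, -⟩, -⟩
  · have h' : s((Sum.inl x : WV b r), Sum.inr u) = s(Sum.inl (i', 0), Sum.inl (i', 1)) := h
    rw [Sym2.eq_iff] at h'
    simp at h'
  · have h' : s((Sum.inl x : WV b r), Sum.inr u) = s(Sum.inl (i', 2), Sum.inl (i', 3)) := h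
    rw [Sym2.eq_iff] at h'
    simp at h'
  · exact h

theorem adj_rr {z z' : Fin b → Bool} {u v : Fin r} :
    (Gz (cc b r) (base b r) z z').Adj (.inr u) (.inr v) ↔ u ≠ v ∧ u.val / 2 = v.val / 2 := by
  rw [← SimpleGraph.mem_edgeSet, mem_Gz]
  constructor
  · rintro ⟨⟨i', h, -⟩ | ⟨i', h, -⟩ | ⟨h, -⟩, -⟩
    · have h' : s((Sum.inr u : WV b r), Sum.inr v) = s(Sum.inl (i', 0), Sum.inl (i', 1)) := h
      rw [Sym2.eq_iff] at h'
      simp at h'
    · have h' : s((Sum.inr u : WV b r), Sum.inr v) = s(Sum.inl (i', 2), Sum.inl (i', 3)) := h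
      rw [Sym2.eq_iff] at h'
      simp at h'
    · exact h
  · intro h
    refine ⟨Or.inr (Or.inr ⟨h, fun i' => ⟨fun h' => ?_, fun h' => ?_⟩⟩), fun h' => ?_⟩
    · have h'' : s((Sum.inr u : WV b r), Sum.inr v) = s(Sum.inl (i', 0), Sum.inl (i', 1)) := h'
      rw [Sym2.eq_iff] at h''
      simp at h''
    · have h'' : s((Sum.inr u : WV b r), Sum.inr v) = s(Sum.inl (i', 2), Sum.inl (i', 3)) := h'
      rw [Sym2.eq_iff] at h''
      simp at h''
    · rw [Sym2.mk_isDiag_iff] at h'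
      exact h.1 (Sum.inr_injective h')

/-- Two leaves with a common neighbour. -/
def Cherry {X : Type} (G : SimpleGraph X) : Prop :=
  ∃ u v w, u ≠ v ∧ (∀ x, G.Adj u x ↔ x = w) ∧ ∀ x, G.Adj v x ↔ x = w

theorem Cherry.iso {X Y : Type} {G : SimpleGraph X} {H : SimpleGraph Y} (f : G ≃g H)
    (h : Cherry G) : Cherry H := by
  obtain ⟨u, v, w, h1, h2, h3⟩ := h
  refine ⟨f u, f v, f w, fun h => h1 (f.injective h), ?_, ?_⟩
  · intro x
    obtain ⟨y, rfl⟩ := f.surjective x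
    rw [f.map_adj_iff, h2, f.injective.eq_iff]
  · intro x
    obtain ⟨y, rfl⟩ := f.surjective x
    rw [f.map_adj_iff, h3, f.injective.eq_iff]

theorem cherry_mix {z z' : Fin b → Bool} (h : ∃ i, z i = false ∧ z' i = true) :
    Cherry (Gz (cc b r) (base b r) z z') := by
  obtain ⟨i, hz, hz'⟩ := h
  refine ⟨.inl (i, 0), .inl (i, 2), .inl (i, 5), by simp, ?_, ?_⟩
  · rintro (⟨j, y⟩ | u)
    · rw [adj_ll, hz, hz', Sum.inl.injEq, Prod.mk.injEq]
      have key : ∀ y : Fin 6, tb false true 0 y = true ↔ y = 5 := by decide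
      rw [key]
      tauto
    · simp only [adj_lr, false_iff]
      simp
  · rintro (⟨j, y⟩ | u)
    · rw [adj_ll, hz, hz', Sum.inl.injEq, Prod.mk.injEq]
      have key : ∀ y : Fin 6, tb false true 2 y = true ↔ y = 5 := by decide
      rw [key]
      tauto
    · simp only [adj_lr, false_iff]
      simp

theorem not_cherry : ¬ Cherry (Gz (cc b r) (base b r) (fun _ => true) (fun _ => true)) := by
  rintro ⟨u, v, w, h1, h2, h3⟩
  have hu := (h2 w).2 rfl
  have hv := (h3 w).2 rfl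
  rcases w with ⟨i, x⟩ | w
  · rcases u with ⟨j, y⟩ | u
    · rcases v with ⟨j', y'⟩ | v
      · rw [adj_ll] at hu hv
        obtain ⟨rfl, hu⟩ := hu
        obtain ⟨rfl, hv⟩ := hv
        have hy : y ≠ y' := fun h => h1 (by rw [h])
        have h2' : ∀ w, tb true true y w = true → w = x := by
          intro w hw
          have := (h2 (.inl (j', w))).1 (adj_ll.2 ⟨rfl, hw⟩)
          exact (Prod.mk.inj (Sum.inl_injective this)).2
        have h3' : ∀ w, tb true true y' w = true → w = x := by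
          intro w hw
          have := (h3 (.inl (j', w))).1 (adj_ll.2 ⟨rfl, hw⟩)
          exact (Prod.mk.inj (Sum.inl_injective this)).2
        have key : ∀ x y y' : Fin 6, y ≠ y' → tb true true y x = true →
            tb true true y' x = true → ¬ ((∀ w, tb true true y w = true → w = x) ∧
              ∀ w, tb true true y' w = true → w = x) := by decide
        exact key x y y' hy hu hv ⟨h2', h3'⟩
      · exact adj_lr hv.symm
    · exact adj_lr hu.symm
  · rcases u with x | u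
    · exact adj_lr hu
    · rcases v with x | v
      · exact adj_lr hv
      · rw [adj_rr] at hu hv
        apply h1
        congr 1
        apply Fin.ext
        have a1 : u.val ≠ w.val := fun h => hu.1 (Fin.ext h)
        have a2 : v.val ≠ w.val := fun h => hv.1 (Fin.ext h)
        omega

end Pool.Agent.W896.FD
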