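import Pool.Agent.W896.FD.P6

/-!
# Perfect matchings and circuits of small formal degree
-/

set_option autoImplicit false

open Finset

namespace Pool.Agent.W896.FD

open Pool.Agent.W896.RK Pool.Agent.W896.HP

variable {b r n : ℕ}

/-- A perfect matching as a map. -/
def PMap {X : Type} (G : SimpleGraph X) : Prop :=
  ∃ f : X → X, (∀ x, G.Adj x (f x)) ∧ ∀ x, f (f x) = x

theorem pmap_iff {X : Type} (G : SimpleGraph X) :
    (∃ M : G.Subgraph, M.IsPerfectMatching) ↔ PMap G := by
  constructor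
  · rintro ⟨M, hM⟩
    rw [SimpleGraph.Subgraph.isPerfectMatching_iff] at hM
    choose f hf using hM
    refine ⟨f, fun x => (hf x).1.adj_sub, fun x => ?_⟩
    have h1 := (hf x).1.symm
    exact ((hf (f x)).2 x h1).symm
  · rintro ⟨f, h1, h2⟩
    refine ⟨{ verts := Set.univ, Adj := fun x y => f x = y, adj_sub := ?_, edge_vert := ?_,
              symm := ⟨?_⟩ }, ?_⟩
    · rintro x y rfl
      exact h1 x
    · intro x y _
      exact Set.mem_univ _
    · rintro x y rfl
      exact h2 x
    · rw [SimpleGraph.Subgraph.isPerfectMatching_iff]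
      intro x
      exact ⟨f x, rfl, fun y hy => Eq.symm (show f x = y from hy)⟩

theorem PMap.iso {X Y : Type} {G : SimpleGraph X} {H : SimpleGraph Y} (g : G ≃g H)
    (h : PMap G) : PMap H := by
  obtain ⟨f, h1, h2⟩ := h
  refine ⟨fun y => g (f (g.symm y)), fun y => ?_, fun y => ?_⟩
  · obtain ⟨x, rfl⟩ := g.surjective y
    simp only [RelIso.symm_apply_apply]
    rw [g.map_adj_iff]
    exact h1 x
  · simp only [RelIso.symm_apply_apply]
    rw [h2]
    simp

theorem Cherry.not_pmap {X : Type} {G : SimpleGraph X} (h : Cherry G) : ¬ PMap G := by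
  rintro ⟨f, h1, h2⟩
  obtain ⟨u, v, w, huv, hu, hv⟩ := h
  have e1 : f u = w := (hu _).1 (h1 u)
  have e2 : f v = w := (hv _).1 (h1 v)
  apply huv
  rw [← h2 u, ← h2 v, e1, e2]

/-- The partner in a block. -/
def mt (p : Bool) (x : Fin 6) : Fin 6 :=
  if p then ![1, 0, 5, 4, 3, 2] x else ![5, 4, 3, 2, 1, 0] x

theorem mt_adj : ∀ (p : Bool) (x : Fin 6), tb p p x (mt p x) = true := by decide

theorem mt_mt : ∀ (p : Bool) (x : Fin 6), mt p (mt p x) = x := by decide

theorem pmap_state (hr : Even r) (z : Fin b → Bool) :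
    PMap (Gz (cc b r) (base b r) z z) := by
  have hlt : ∀ u : Fin r, (if u.val % 2 = 0 then u.val + 1 else u.val - 1) < r := by
    intro u
    have h1 := u.isLt
    rw [Nat.even_iff] at hr
    split_ifs with h <;> omega
  refine ⟨Sum.map (fun x => (x.1, mt (z x.1) x.2))
    (fun u => ⟨if u.val % 2 = 0 then u.val + 1 else u.val - 1, hlt u⟩), ?_, ?_⟩
  · rintro (⟨i, x⟩ | u)
    · rw [Sum.map_inl, adj_ll]
      exact ⟨rfl, mt_adj _ _⟩
    · rw [Sum.map_inr, adj_rr]
      constructor
      · intro h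
        have h1 := congrArg Fin.val h
        simp only at h1
        split_ifs at h1 with h2 <;> omega
      · simp only
        split_ifs with h2 <;> omega
  · rintro (⟨i, x⟩ | u)
    · simp only [Sum.map_inl, mt_mt]
    · simp only [Sum.map_inr]
      congr 1
      apply Fin.ext
      simp only
      split_ifs <;> omega

theorem pm_final (k n : ℕ) (hn : Even n) (R : Type) [Fintype R] [Nonempty R]
    (U : R → Circ (Sym2 (Fin n)))
    (hU : ∀ r (G : SimpleGraph (Fin n)), (U r).Val (bits G) (U r).out →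
      ∃ M : G.Subgraph, M.IsPerfectMatching)
    (hc : ∀ G : SimpleGraph (Fin n), (∃ M : G.Subgraph, M.IsPerfectMatching) →
      Nat.card R ≤ 2 ^ (n / 2 ^ (60 * (k + 1))) * Nat.card {r // (U r).Val (bits G) (U r).out})
    (hd : ∀ r, ∃ d : (U r).G → Sym2 (Fin n) → ℕ, IsDeg (U r) id d ∧
      ∑ e, d (U r).out e ≤ k * n ^ 2) :
    ∃ r, n ≤ 2 ^ (60 * (k + 1)) * (Nat.log 2 (Fintype.card (U r).G) + 1) := by
  classical
  obtain ⟨b, hb⟩ : ∃ b, b = n / 6 := ⟨_, rfl⟩
  obtain ⟨r, hr⟩ : ∃ r, r = n % 6 := ⟨_, rfl⟩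
  have hre : Even r := by
    rw [Nat.even_iff] at hn ⊢
    omega
  have hcard : Fintype.card (WV b r) = Fintype.card (Fin n) := by
    rw [Fintype.card_sum, Fintype.card_prod, Fintype.card_fin, Fintype.card_fin,
      Fintype.card_fin, Fintype.card_fin]
    omega
  obtain ⟨φ⟩ : Nonempty (WV b r ≃ Fin n) := ⟨Fintype.equivOfCardEq hcard⟩
  have hp : Function.Injective (id : Sym2 (Fin n) → Sym2 (Fin n)) := Function.injective_id
  have hfill : ∀ G : SimpleGraph (Fin n), fill (id : Sym2 (Fin n) → Sym2 (Fin n))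
      (fun _ => false) (bits G) = bits G := by
    intro G
    funext e
    exact fill_apply hp _ _ e
  refine final_graph k (b := b) (by omega) φ (cc b r) (base b r) hp (fun _ => false)
    (fun G => ∃ M : G.Subgraph, M.IsPerfectMatching) ?_ ?_ ?_ R U ?_ ?_ hd
  · intro G ρ h
    rw [pmap_iff] at h ⊢
    exact h.iso (SimpleGraph.Iso.map ρ G)
  · intro z
    rw [pmap_iff]
    exact (pmap_state hre z).iso (SimpleGraph.Iso.map φ _)
  · intro z z' h
    rw [pmap_iff]
    exact ((cherry_mix (r := r) h).iso (SimpleGraph.Iso.map φ _)).not_pmap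
  · intro r G hG
    rw [hfill] at hG
    exact hU r G hG
  · intro G hG
    have h1 := hc G hG
    rw [hfill]
    exact h1

end Pool.Agent.W896.FD
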