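import Pool.Agent.W896.FD.Gen2
import Pool.Agent.W896.FD.PM

/-!
# The number of perfect matchings and circuits of small formal degree
-/

set_option autoImplicit false

open Finset

namespace Pool.Agent.W896.FD

open Pool.Agent.W896.RK Pool.Agent.W896.HP

variable {b r n : ℕ}

/-- The number of perfect matchings. -/
noncomputable def numPM {X : Type} (G : SimpleGraph X) : ℕ :=
  Nat.card {M : G.Subgraph // M.IsPerfectMatching}

/-- A perfect matching as a map. -/
def IsPM {X : Type} (G : SimpleGraph X) (f : X → X) : Prop :=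
  (∀ x, G.Adj x (f x)) ∧ ∀ x, f (f x) = x

theorem IsPM.iso {X Y : Type} {G : SimpleGraph X} {H : SimpleGraph Y} (g : G ≃g H) {f : X → X}
    (h : IsPM G f) : IsPM H (fun y => g (f (g.symm y))) := by
  obtain ⟨h1, h2⟩ := h
  refine ⟨fun y => ?_, fun y => ?_⟩
  · obtain ⟨x, rfl⟩ := g.surjective y
    simp only [RelIso.symm_apply_apply]
    rw [g.map_adj_iff]
    exact h1 x
  · simp only [RelIso.symm_apply_apply]
    rw [h2]
    simp

/-- There is exactly one perfect matching. -/
def UPM {X : Type} (G : SimpleGraph X) : Prop :=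
  (∃ f, IsPM G f) ∧ ∀ f f', IsPM G f → IsPM G f' → f = f'

theorem UPM.iso {X Y : Type} {G : SimpleGraph X} {H : SimpleGraph Y} (g : G ≃g H)
    (h : UPM G) : UPM H := by
  obtain ⟨⟨f, hf⟩, h2⟩ := h
  refine ⟨⟨_, hf.iso g⟩, fun f₁ f₂ h₁ h₂ => ?_⟩
  have e := h2 _ _ (h₁.iso g.symm) (h₂.iso g.symm)
  funext y
  have e1 := congrFun e (g.symm y)
  have e2 : g (g.symm (f₁ (g.symm.symm (g.symm y)))) = g (g.symm (f₂ (g.symm.symm (g.symm y)))) :=
    congrArg g e1
  rw [RelIso.apply_symm_apply, RelIso.apply_symm_apply] at e2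
  have e3 : g.symm.symm (g.symm y) = y := RelIso.apply_symm_apply g y
  rw [e3] at e2
  exact e2

theorem UPM.num {X : Type} {G : SimpleGraph X} (h : UPM G) : numPM G = 1 := by
  obtain ⟨⟨f, hf⟩, h2⟩ := h
  unfold numPM
  rw [Nat.card_eq_one_iff_unique]
  constructor
  · constructor
    rintro ⟨M, hM⟩ ⟨M', hM'⟩
    have key : ∀ M : G.Subgraph, M.IsPerfectMatching → ∃ f, IsPM G f ∧ M.verts = Set.univ ∧
        ∀ x y, M.Adj x y ↔ f x = y := by
      intro M hM
      have hM1 := hM
      rw [SimpleGraph.Subgraph.isPerfectMatching_iff] at hM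
      choose f hf using hM
      refine ⟨f, ⟨fun x => (hf x).1.adj_sub, fun x => ?_⟩, ?_, ?_⟩
      · exact ((hf (f x)).2 x (hf x).1.symm).symm
      · exact hM1.2.verts_eq_univ
      · intro x y
        constructor
        · intro h
          exact ((hf x).2 y h).symm
        · rintro rfl
          exact (hf x).1
    obtain ⟨f₁, a1, a2, a3⟩ := key M hM
    obtain ⟨f₂, b1, b2, b3⟩ := key M' hM'
    have e := h2 _ _ a1 b1
    apply Subtype.ext
    apply SimpleGraph.Subgraph.ext
    · rw [a2, b2]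
    · funext x y
      rw [eq_iff_iff, a3, b3, e]
  · obtain ⟨M, hM⟩ := (pmap_iff G).2 ⟨f, hf.1, hf.2⟩
    exact ⟨⟨M, hM⟩⟩

theorem num_ne {X : Type} {G : SimpleGraph X} (h : numPM G ≠ 0) : PMap G := by
  rw [← pmap_iff]
  by_contra h'
  apply h
  unfold numPM
  have : IsEmpty {M : G.Subgraph // M.IsPerfectMatching} :=
    ⟨fun M => h' ⟨M.1, M.2⟩⟩
  exact Nat.card_of_isEmpty

/-- The leaves. -/
theorem leaf : ∀ (p : Bool) (x y : Fin 6), ((p = true ∧ (x = 2 ∨ x = 3)) ∨
    (p = false ∧ (x = 0 ∨ x = 1))) → tb p p x y = true → y = mt p x := by decide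

theorem leaf' : ∀ (p : Bool) (x y : Fin 6), tb p p x y = true → y ≠ mt p x →
    ((p = true ∧ (mt p y = 2 ∨ mt p y = 3)) ∨ (p = false ∧ (mt p y = 0 ∨ mt p y = 1))) ∨
    ((p = true ∧ (mt p x = 2 ∨ mt p x = 3)) ∨ (p = false ∧ (mt p x = 0 ∨ mt p x = 1))) := by
  decide

theorem mt_inv : ∀ (p : Bool) (x y : Fin 6), y = mt p x → x = mt p y := by decide

theorem upm_state (hr : Even r) (z : Fin b → Bool) :
    UPM (Gz (cc b r) (base b r) z z) := by
  obtain ⟨f₀, h₀, h₀'⟩ := pmap_state hr z
  have uni : ∀ f f', IsPM (Gz (cc b r) (base b r) z z) f →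
      IsPM (Gz (cc b r) (base b r) z z) f' → f = f' := by
    -- the value in a block
    have blk : ∀ f, IsPM (Gz (cc b r) (base b r) z z) f → ∀ i x,
        f (.inl (i, x)) = .inl (i, mt (z i) x) := by
      intro f hf i x
      have stp : ∀ x, ∃ y, f (.inl (i, x)) = .inl (i, y) ∧ tb (z i) (z i) x y = true := by
        intro x
        have h1 := hf.1 (.inl (i, x))
        rcases hy : f (.inl (i, x)) with ⟨j, y⟩ | u
        · rw [hy, adj_ll] at h1
          obtain ⟨rfl, h1⟩ := h1
          exact ⟨y, rfl, h1⟩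
        · rw [hy] at h1
          exact absurd h1 adj_lr
      have lf : ∀ x, ((z i = true ∧ (x = 2 ∨ x = 3)) ∨ (z i = false ∧ (x = 0 ∨ x = 1))) →
          f (.inl (i, x)) = .inl (i, mt (z i) x) := by
        intro x hx
        obtain ⟨y, h1, h2⟩ := stp x
        rw [h1, leaf _ _ _ hx h2]
      obtain ⟨y, h1, h2⟩ := stp x
      by_cases hy : y = mt (z i) x
      · rw [h1, hy]
      · exfalso
        rcases leaf' _ _ _ h2 hy with h3 | h3
        · have h4 := lf _ h3
          rw [mt_mt] at h4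
          have h5 := hf.2 (.inl (i, x))
          have h6 := hf.2 (.inl (i, mt (z i) y))
          rw [h4] at h6
          rw [h1] at h5
          rw [h6] at h5
          have h7 := (Prod.mk.inj (Sum.inl_injective h5)).2
          exact hy (mt_inv _ _ _ h7.symm)
        · have h4 := lf _ h3
          rw [mt_mt] at h4
          have h6 := hf.2 (.inl (i, mt (z i) x))
          rw [h4, h1] at h6
          exact hy (Prod.mk.inj (Sum.inl_injective h6)).2
    intro f f' hf hf'
    funext v
    rcases v with ⟨i, x⟩ | u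
    · rw [blk f hf, blk f' hf']
    · have key : ∀ f, IsPM (Gz (cc b r) (base b r) z z) f → ∃ w : Fin r, f (.inr u) = .inr w ∧
          u ≠ w ∧ u.val / 2 = w.val / 2 := by
        intro f hf
        have h1 := hf.1 (.inr u)
        rcases hy : f (.inr u) with x | w
        · rw [hy] at h1
          exact absurd h1.symm adj_lr
        · rw [hy, adj_rr] at h1
          exact ⟨w, rfl, h1.1, h1.2⟩
      obtain ⟨w, h1, h2, h3⟩ := key f hf
      obtain ⟨w', h1', h2', h3'⟩ := key f' hf'
      rw [h1, h1']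
      congr 1
      apply Fin.ext
      have a1 : u.val ≠ w.val := fun h => h2 (Fin.ext h)
      have a2 : u.val ≠ w'.val := fun h => h2' (Fin.ext h)
      omega
  exact ⟨⟨f₀, h₀, h₀'⟩, uni⟩

theorem count_final (k n : ℕ) (hn : Even n) (R : Type) [Fintype R] [Nonempty R]
    (U : R → Circ (Sym2 (Fin n)))
    (hU : ∀ r (G : SimpleGraph (Fin n)), (U r).Val (bits G) (U r).out → numPM G ≠ 0)
    (hc : ∀ G : SimpleGraph (Fin n), numPM G = 1 →
      Nat.card R ≤ 2 ^ (n / 2 ^ (60 * (k + 1))) * Nat.card {r // (U r).Val (bits G) (U r).out})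
    (hd : ∀ r, ∃ d : (U r).G → Sym2 (Fin n) → ℕ, IsDeg (U r) id d ∧
      ∑ e, d (U r).out e ≤ k * n ^ 2) :
    ∃ r, n ≤ 2 ^ (60 * (k + 1)) * (Nat.log 2 (Fintype.card (U r).G) + 1) := by
  classical
  obtain ⟨b, hb⟩ : ∃ b, b = n / 6 := ⟨_, rfl⟩
  obtain ⟨r, hr⟩ : ∃ r, r = n % 6 := ⟨_, rfl⟩
  have hre : Even r := by
    rw [Nat.even_iff] at hn ⊢
    omega
  have hcard : Fintype.card (WV b r) = Fintype.card (Fin n) := by
    rw [Fintype.card_sum, Fintype.card_prod, Fintype.card_fin, Fintype.card_fin,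
      Fintype.card_fin, Fintype.card_fin]
    omega
  obtain ⟨φ⟩ : Nonempty (WV b r ≃ Fin n) := ⟨Fintype.equivOfCardEq hcard⟩
  have hp : Function.Injective (id : Sym2 (Fin n) → Sym2 (Fin n)) := Function.injective_id
  have hfill : ∀ G : SimpleGraph (Fin n), fill (id : Sym2 (Fin n) → Sym2 (Fin n))
      (fun _ => false) (bits G) = bits G := by
    intro G
    funext e
    exact fill_apply hp _ _ e
  refine final_graphE k n le_rfl (b := b) (by omega) φ (cc b r) (base b r) hp (fun _ => false)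
    (fun G => UPM G) (fun G => PMap G) ?_ ?_ ?_ ?_ R U ?_ ?_ hd
  · intro G ρ h
    exact h.iso (SimpleGraph.Iso.map ρ G)
  · intro G ρ h
    exact h.iso (SimpleGraph.Iso.map ρ G)
  · intro z
    exact (upm_state hre z).iso (SimpleGraph.Iso.map φ _)
  · intro z z' hzz ⟨h5, h6⟩
    have key : ∀ z z' : Fin b → Bool, (∃ i, z i = false ∧ z' i = true) →
        ¬ PMap ((Gz (cc b r) (base b r) z z').map φ) := by
      intro z z' h
      exact ((cherry_mix (r := r) h).iso (SimpleGraph.Iso.map φ _)).not_pmap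
    obtain ⟨i, hi⟩ := Function.ne_iff.1 hzz
    cases hz : z i with
    | true =>
      cases hz' : z' i with
      | true => exact hi (by rw [hz, hz'])
      | false => exact key z' z ⟨i, hz', hz⟩ h6
    | false =>
      cases hz' : z' i with
      | true => exact key z z' ⟨i, hz, hz'⟩ h5
      | false => exact hi (by rw [hz, hz'])
  · intro r G hG
    rw [hfill] at hG
    exact num_ne (hU r G hG)
  · intro G hG
    have h1 := hc G hG.num
    rw [hfill]
    exact h1

end Pool.Agent.W896.FD
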