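import Pool.Agent.W896.FD.MEq

/-!
# Graphs whose arcs are shortest walks, and circuits of small formal degree
-/

set_option autoImplicit false
set_option maxHeartbeats 1000000

open Finset

namespace Pool.Agent.W896.FD.Shortest

open Pool.Agent.W896.RK Pool.Agent.W896.HP Pool.Agent.W896.FD Pool.Agent.W896.FD.Star
open Pool.Agent.W896.FD.Tri (Mt mt_symm)
open Pool.Agent.W896.FD.MEq (gr0 gr2)

variable {N b : ℕ}

/-- The weight of the arc from `i` to `j`, a number from `1` to `4`, given by two bits. -/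
def wt (x : Fin (N + 1) × Fin (N + 1) × Bool → Bool) (i j : Fin (N + 1)) : ℕ :=
  1 + (if x (i, j, false) = true then 1 else 0) + (if x (i, j, true) = true then 2 else 0)

/-- The weight of the walk which starts at `i` and goes through the vertices of a list. -/
def walk (x : Fin (N + 1) × Fin (N + 1) × Bool → Bool) : Fin (N + 1) → List (Fin (N + 1)) → ℕ
  | _, [] => 0
  | i, j :: l => wt x i j + walk x j l

/-- No walk between two different vertices has a smaller weight than the arc between them, that is,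
the distances of different vertices are the weights of the arcs. -/
def Shortest (x : Fin (N + 1) × Fin (N + 1) × Bool → Bool) : Prop :=
  ∀ (i : Fin (N + 1)) (l : List (Fin (N + 1))), l.getLastD i ≠ i →
    wt x i (l.getLastD i) ≤ walk x i l

theorem shortest_of {x : Fin (N + 1) × Fin (N + 1) × Bool → Bool}
    (h : ∀ i j k, i ≠ j → wt x i j ≤ wt x i k + wt x k j) : Shortest x := by
  intro i l
  induction l generalizing i with
  | nil => intro h1; exact absurd rfl h1
  | cons k l ih =>
    intro hne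
    rw [List.getLastD_cons] at hne ⊢
    change wt x i _ ≤ wt x i k + walk x k l
    by_cases hk : l.getLastD k = k
    · rw [hk]; omega
    · have h1 := ih k hk
      have h2 := h i (l.getLastD k) k (Ne.symm hne)
      omega

theorem triple_of {x : Fin (N + 1) × Fin (N + 1) × Bool → Bool} (h : Shortest x)
    {i j : Fin (N + 1)} (k : Fin (N + 1)) (hij : i ≠ j) : wt x i j ≤ wt x i k + wt x k j :=
  h i [k, j] (fun h => hij h.symm)

/-- The free bits. -/
def clsA (a : Fin (N + 1)) (x : Fin (N + 1) × Fin (N + 1) × Bool) : Option (Fin N) :=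
  if x.1 = a ∧ x.2.2 = true then finSuccEquiv' a x.2.1 else none

open Classical in
/-- The fixed bits. -/
noncomputable def fxA (a : Fin (N + 1)) (c : Fin b × Fin 4 ↪ Fin N) (ρ : Equiv.Perm (Fin N))
    (x : Fin (N + 1) × Fin (N + 1) × Bool) : Bool :=
  decide (x.1 ≠ a ∧ (x.2.1 = a ∨ (x.2.2 = false ∧
    ¬ ∃ v w, Mt c ρ v w ∧ x.1 = a.succAbove v ∧ x.2.1 = a.succAbove w)))

/-- The instance. -/
noncomputable def insA (a : Fin (N + 1)) (c : Fin b × Fin 4 ↪ Fin N)
    (ρ : Equiv.Perm (Fin N)) (z z' : Fin b → Bool) : Fin (N + 1) × Fin (N + 1) × Bool → Bool :=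
  inI false (clsA a) (fun ρ => fxA a c ρ) c ρ z z'

section

variable (a : Fin (N + 1)) (c : Fin b × Fin 4 ↪ Fin N) (ρ : Equiv.Perm (Fin N))
  (z z' : Fin b → Bool)

theorem wt_row (v : Fin N) : wt (insA a c ρ z z') a (a.succAbove v) =
    1 + (if grS false c z z' (ρ.symm v) = true then 2 else 0) := by
  have h1 : insA a c ρ z z' (a, a.succAbove v, false) = false := by
    unfold insA inI clsA fxA
    simp
  have h2 : insA a c ρ z z' (a, a.succAbove v, true) = grS false c z z' (ρ.symm v) := by
    unfold insA inI clsA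
    simp
  unfold wt
  rw [h1, h2]
  simp

theorem ins_other {u : Fin (N + 1)} (hu : u ≠ a) (v : Fin (N + 1)) (s : Bool) :
    insA a c ρ z z' (u, v, s) = fxA a c ρ (u, v, s) := by
  unfold insA inI clsA
  simp [hu]

theorem wt_col (v : Fin N) : wt (insA a c ρ z z') (a.succAbove v) a = 4 := by
  classical
  have hv : a.succAbove v ≠ a := Fin.succAbove_ne a v
  have h1 : ∀ s, fxA a c ρ (a.succAbove v, a, s) = true := by
    intro s
    unfold fxA
    exact decide_eq_true ⟨hv, Or.inl rfl⟩
  unfold wt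
  rw [ins_other a c ρ z z' hv, ins_other a c ρ z z' hv, h1, h1]
  rfl

theorem fx_true (v w : Fin N) : fxA a c ρ (a.succAbove v, a.succAbove w, true) = false := by
  unfold fxA
  rw [decide_eq_false_iff_not]
  rintro ⟨-, h | h⟩
  · exact Fin.succAbove_ne a w h
  · exact Bool.noConfusion h.1

theorem wt_mt {v w : Fin N} (h : Mt c ρ v w) :
    wt (insA a c ρ z z') (a.succAbove v) (a.succAbove w) = 1 := by
  classical
  have hv : a.succAbove v ≠ a := Fin.succAbove_ne a v
  have h1 : fxA a c ρ (a.succAbove v, a.succAbove w, false) = false := by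
    unfold fxA
    rw [decide_eq_false_iff_not]
    rintro ⟨-, h2 | h2⟩
    · exact Fin.succAbove_ne a w h2
    · exact h2.2 ⟨v, w, h, rfl, rfl⟩
  unfold wt
  rw [ins_other a c ρ z z' hv, ins_other a c ρ z z' hv, h1, fx_true]
  rfl

theorem wt_un {v w : Fin N} (h : ¬ Mt c ρ v w) :
    wt (insA a c ρ z z') (a.succAbove v) (a.succAbove w) = 2 := by
  classical
  have hv : a.succAbove v ≠ a := Fin.succAbove_ne a v
  have h1 : fxA a c ρ (a.succAbove v, a.succAbove w, false) = true := by
    unfold fxA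
    refine decide_eq_true ⟨hv, Or.inr ⟨rfl, ?_⟩⟩
    rintro ⟨v', w', h2, h3, h4⟩
    have h5 : v = v' := Fin.succAbove_right_injective h3
    have h6 : w = w' := Fin.succAbove_right_injective h4
    subst h5
    subst h6
    exact h h2
  unfold wt
  rw [ins_other a c ρ z z' hv, ins_other a c ρ z z' hv, h1, fx_true]
  rfl

theorem shortest_eq : Shortest (insA a c ρ z z) := by
  apply shortest_of
  intro i j k hij
  have hpos : ∀ u v, 1 ≤ wt (insA a c ρ z z) u v := by
    intro u v
    unfold wt
    omega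
  rcases Fin.eq_self_or_eq_succAbove a i with hi | ⟨v, hi⟩
  · rcases Fin.eq_self_or_eq_succAbove a j with hj | ⟨w, hj⟩
    · exact absurd (hi.trans hj.symm) hij
    · rcases Fin.eq_self_or_eq_succAbove a k with hk | ⟨y, hk⟩
      · rw [hi, hk]; omega
      · rw [hi, hj, hk, wt_row, wt_row]
        by_cases h : Mt c ρ y w
        · have h1 : grS false c z z (ρ.symm w) = grS false c z z (ρ.symm y) := by
            obtain ⟨q, ⟨h1, h2⟩ | ⟨h1, h2⟩⟩ := h
            · rw [h1, h2, Equiv.symm_apply_apply, Equiv.symm_apply_apply, gr0, gr2]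
            · rw [h1, h2, Equiv.symm_apply_apply, Equiv.symm_apply_apply, gr0, gr2]
          rw [h1]
          omega
        · rw [wt_un a c ρ z z h]
          split_ifs <;> omega
  · rcases Fin.eq_self_or_eq_succAbove a j with hj | ⟨w, hj⟩
    · rcases Fin.eq_self_or_eq_succAbove a k with hk | ⟨y, hk⟩
      · rw [hj, hk]; omega
      · rw [hi, hj, hk, wt_col, wt_col]; omega
    · have h1 : wt (insA a c ρ z z) i j ≤ 2 := by
        rw [hi, hj]
        by_cases h : Mt c ρ v w
        · rw [wt_mt a c ρ z z h]; omega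
        · rw [wt_un a c ρ z z h]
      have h2 := hpos i k
      have h3 := hpos k j
      omega

theorem not_shortest {i : Fin b} (hz : z i ≠ z' i) : ¬ Shortest (insA a c ρ z z') := by
  intro hs
  have hpq : Mt c ρ (ρ (c (i, 0))) (ρ (c (i, 2))) := ⟨i, Or.inl ⟨rfl, rfl⟩⟩
  have h1 := triple_of hs (i := a) (j := a.succAbove (ρ (c (i, 0))))
    (a.succAbove (ρ (c (i, 2)))) (Ne.symm (Fin.succAbove_ne a _))
  have h2 := triple_of hs (i := a) (j := a.succAbove (ρ (c (i, 2))))
    (a.succAbove (ρ (c (i, 0)))) (Ne.symm (Fin.succAbove_ne a _))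
  rw [wt_row, wt_row, wt_mt a c ρ z z' (mt_symm hpq), Equiv.symm_apply_apply,
    Equiv.symm_apply_apply, gr0, gr2] at h1
  rw [wt_row, wt_row, wt_mt a c ρ z z' hpq, Equiv.symm_apply_apply,
    Equiv.symm_apply_apply, gr0, gr2] at h2
  cases h3 : z i <;> cases h4 : z' i <;> rw [h3, h4] at h1 h2 hz
  · exact hz rfl
  · simp at h2
  · simp at h1
  · exact hz rfl

end

/-- **Graphs whose arcs are shortest walks**, one row. -/
theorem short_row (k N : ℕ) (a : Fin (N + 1)) (R : Type) [Fintype R]
    [Nonempty R] (U : R → Circ (Fin (N + 1) × Fin (N + 1) × Bool))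
    (hU : ∀ r x, (U r).Val x (U r).out → Shortest x)
    (hc : ∀ x, Shortest x →
      Nat.card R ≤ 2 ^ (N / 2 ^ (60 * (k + 1))) * Nat.card {r // (U r).Val x (U r).out})
    (hdeg : ∀ r, ∃ f : (U r).G → Fin (N + 1) × Fin (N + 1) × Bool → ℕ, IsDeg (U r) id f ∧
      ∑ v, f (U r).out (a, v, true) ≤ k * N) :
    ∃ r, N ≤ 2 ^ (60 * (k + 1)) * (Nat.log 2 (Fintype.card (U r).G) + 1) := by
  classical
  obtain ⟨b, hb⟩ : ∃ b, b = N / 4 := ⟨_, rfl⟩
  have hb1 : N < 4 * (b + 1) := by rw [hb]; exact Nat.lt_mul_div_succ N (by norm_num)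
  have hb2 : 4 * b ≤ N := by rw [hb]; exact Nat.mul_div_le _ _
  obtain ⟨c⟩ : Nonempty (Fin b × Fin 4 ↪ Fin N) := by
    apply Function.Embedding.nonempty_of_card_le
    rw [Fintype.card_prod, Fintype.card_fin, Fintype.card_fin, Fintype.card_fin]
    omega
  refine finalI (ν := false) k (b := b) (by omega) (clsA a) (fun ρ => fxA a c ρ) c
    (fun ρ z z' => Shortest (insA a c ρ z z')) 0 ?_ ?_ R U ?_ ?_ ?_
  · rw [vol_zero]
    exact Nat.one_le_two_pow
  · rintro ρ z z' h ⟨h1, h2⟩
    unfold dst at h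
    obtain ⟨i, hi⟩ := card_pos.1 h
    exact not_shortest a c ρ z z' (mem_filter.1 hi).2 h1
  · intro r ρ z z' h
    exact hU r _ h
  · intro ρ z
    exact hc _ (shortest_eq a c ρ z)
  · intro r
    obtain ⟨f, hf1, hf2⟩ := hdeg r
    refine ⟨f, hf1, le_trans ?_ hf2⟩
    calc ∑ v with clsA a v ≠ none, f (U r).out v ≤
        ∑ v ∈ (univ : Finset (Fin (N + 1))).image
          (fun v => ((a, v, true) : Fin (N + 1) × Fin (N + 1) × Bool)), f (U r).out v := by
          apply sum_le_sum_of_subset
          rintro ⟨u, v, s⟩ hv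
          rw [mem_filter] at hv
          have h1 := hv.2
          unfold clsA at h1
          by_cases hvv : u = a ∧ s = true
          · rw [mem_image]
            exact ⟨v, mem_univ _, by rw [hvv.1, hvv.2]⟩
          · simp only [hvv, if_false] at h1
            exact absurd rfl h1
      _ = ∑ v, f (U r).out (a, v, true) := sum_image (by
          intro v _ v' _ h
          simp only [Prod.mk.injEq, and_true, true_and] at h
          exact h)

/-- **Graphs whose arcs are shortest walks**, all bits. -/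
theorem short_total (k N : ℕ) (U : Circ (Fin (N + 1) × Fin (N + 1) × Bool))
    (hU : ∀ x, U.Val x U.out ↔ Shortest x)
    (hdeg : ∃ f : U.G → Fin (N + 1) × Fin (N + 1) × Bool → ℕ, IsDeg U id f ∧
      ∑ u, ∑ v, f U.out (u, v, true) ≤ k * (N * (N + 1))) :
    N ≤ 2 ^ (60 * (k + 1)) * (Nat.log 2 (Fintype.card U.G) + 1) := by
  classical
  obtain ⟨f, hf1, hf2⟩ := hdeg
  obtain ⟨a, ha⟩ : ∃ a, ∑ v, f U.out (a, v, true) ≤ k * N := by
    by_contra hcon
    push Not at hcon
    have h1 : ∑ _a : Fin (N + 1), (k * N) < ∑ a, ∑ v, f U.out (a, v, true) :=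
      sum_lt_sum_of_nonempty ⟨0, mem_univ _⟩ (fun a _ => hcon a)
    rw [sum_const, card_univ, Fintype.card_fin, smul_eq_mul] at h1
    have h2 : (N + 1) * (k * N) = k * (N * (N + 1)) := by ring
    omega
  obtain ⟨r, hr⟩ := short_row k N a Unit (fun _ => U) (fun _ x h => (hU x).1 h)
    (fun x hx => by
      have h2 : Nat.card {r : Unit // U.Val x U.out} = 1 := by
        rw [Nat.card_eq_one_iff_unique]
        exact ⟨⟨fun a b => Subtype.ext rfl⟩, ⟨⟨(), (hU x).2 hx⟩⟩⟩
      rw [h2, mul_one, Nat.card_unique]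
      exact Nat.one_le_two_pow) (fun _ => ⟨f, hf1, ha⟩)
  exact hr

end Pool.Agent.W896.FD.Shortest
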