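import Pool.Agent.W896.FD.Dual
import Pool.Agent.W896.FD.OV

/-!
# Tautologies with few variables, and circuits of small formal degree
-/

set_option autoImplicit false
set_option maxHeartbeats 1000000

open Finset

namespace Pool.Agent.W896.FD.TautD

open Pool.Agent.W896.RK Pool.Agent.W896.HP Pool.Agent.W896.FD Pool.Agent.W896.FD.Star
open Pool.Agent.W896.FD.Tri (grS_0 grS_2)
open Pool.Agent.W896.FD.OV (testBit_ne)
open Pool.Agent.W896.FD.Dual (exists_ext)

variable {n m L : ℕ}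

/-- The formula in disjunctive normal form in which the term `c` contains the literal `v = s` if
`u (c, v, s) = true` is a tautology: every assignment makes a term true. -/
def Taut (u : Fin n × Fin m × Bool → Bool) : Prop :=
  ∀ α : Fin m → Bool, ∃ c : Fin n, ∀ v s, u (c, v, s) = true → α v = s

/-- The position belongs to the pair `i`. -/
def Cd (cc : Fin (2 ^ L) × Fin 4 → Fin n) (ρ : Equiv.Perm (Fin n)) (p : Fin n) (i : Fin (2 ^ L)) :
    Prop := p = ρ (cc (i, 0)) ∨ p = ρ (cc (i, 2))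

open Classical in
/-- The fixed bits. -/
noncomputable def fxT (e : Fin (L + 1) → Fin m) (cc : Fin (2 ^ L) × Fin 4 → Fin n)
    (ρ : Equiv.Perm (Fin n)) (x : Fin n × Fin m × Bool) : Bool :=
  decide (∃ j : Fin L, x.2.1 = e j.succ ∧ ∀ i, Cd cc ρ x.1 i → x.2.2 = i.val.testBit j.val)

/-- The free bits. -/
def clsT (v₀ : Fin m) (x : Fin n × Fin m × Bool) : Option (Fin n) :=
  if x.2.1 = v₀ then some x.1 else none

/-- The signs. -/
def sgT (x : Fin n × Fin m × Bool) : Bool := !x.2.2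

/-- The instance. -/
noncomputable def insT (e : Fin (L + 1) → Fin m) (cc : Fin (2 ^ L) × Fin 4 → Fin n)
    (ρ : Equiv.Perm (Fin n)) (z z' : Fin (2 ^ L) → Bool) : Fin n × Fin m × Bool → Bool :=
  inJ true (clsT (e 0)) sgT (fun ρ => fxT e cc ρ) cc ρ z z'

section

variable (e : Fin (L + 1) ↪ Fin m) (cc : Fin (2 ^ L) × Fin 4 ↪ Fin n) (ρ : Equiv.Perm (Fin n))
  (z z' : Fin (2 ^ L) → Bool)

theorem insT_free (p : Fin n) (s : Bool) : insT e cc ρ z z' (p, e 0, s) = true ↔
    grS true cc z z' (ρ.symm p) = s := by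
  unfold insT
  rw [inJ_some (i := p) (by unfold clsT; simp)]
  unfold sgT
  cases s <;> simp

theorem insT_fixed (p : Fin n) {v : Fin m} (hv : v ≠ e 0) (s : Bool) :
    insT e cc ρ z z' (p, v, s) = true ↔
      ∃ j : Fin L, v = e j.succ ∧ ∀ i, Cd cc ρ p i → s = i.val.testBit j.val := by
  classical
  unfold insT
  rw [inJ_none (by unfold clsT; simp [hv])]
  unfold fxT
  exact decide_eq_true_iff

theorem cd_unique {p : Fin n} {i i' : Fin (2 ^ L)} (h : Cd cc ρ p i) (h' : Cd cc ρ p i') :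
    i = i' := by
  have key : ∀ {i j : Fin (2 ^ L)} {x y : Fin 4}, ρ (cc (i, x)) = ρ (cc (j, y)) → i = j := by
    intro i j x y h
    have := cc.injective (ρ.injective h)
    rw [Prod.mk.injEq] at this
    exact this.1
  rcases h with h | h <;> rcases h' with h' | h' <;> exact key (h.symm.trans h')

theorem taut_eq : Taut (insT e cc ρ z z) := by
  intro α
  obtain ⟨i, hi⟩ : ∃ i : Fin (2 ^ L), ∀ j : Fin L, i.val.testBit j.val = α (e j.succ) := by
    refine ⟨⟨Nat.ofBits (fun j : Fin L => α (e j.succ)), Nat.ofBits_lt_two_pow _⟩, fun j => ?_⟩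
    simp
  obtain ⟨p, hp, hx⟩ : ∃ p, Cd cc ρ p i ∧ grS true cc z z (ρ.symm p) = α (e 0) := by
    by_cases h : z i = α (e 0)
    · refine ⟨ρ (cc (i, 0)), Or.inl rfl, ?_⟩
      rw [Equiv.symm_apply_apply, grS_0, h]
    · refine ⟨ρ (cc (i, 2)), Or.inr rfl, ?_⟩
      rw [Equiv.symm_apply_apply, grS_2]
      cases h1 : z i <;> cases h2 : α (e 0) <;> simp_all
  refine ⟨p, fun v s hvs => ?_⟩
  by_cases hv : v = e 0
  · subst hv
    rw [insT_free] at hvs
    rw [← hx, hvs]
  · rw [insT_fixed e cc ρ z z p hv] at hvs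
    obtain ⟨j, rfl, h⟩ := hvs
    rw [h i hp, hi]

theorem not_taut (hL : 1 ≤ L) {i : Fin (2 ^ L)} (hz : z i ≠ z' i) :
    ¬ Taut (insT e cc ρ z z') := by
  classical
  intro h
  obtain ⟨α, hα0, hα⟩ : ∃ α : Fin m → Bool, α (e 0) = !z i ∧
      ∀ j : Fin L, α (e j.succ) = i.val.testBit j.val := by
    refine ⟨fun v => if v = e 0 then !z i else
      decide (∃ j : Fin L, v = e j.succ ∧ i.val.testBit j.val = true), if_pos rfl, fun j => ?_⟩
    have h1 : e j.succ ≠ e 0 := fun h => absurd (e.injective h) (Fin.succ_ne_zero j)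
    simp only [h1, if_false]
    cases hb : i.val.testBit j.val with
    | true => exact decide_eq_true ⟨j, rfl, hb⟩
    | false =>
      rw [decide_eq_false_iff_not]
      rintro ⟨j', h2, h3⟩
      have h4 := Fin.succ_injective _ (e.injective h2)
      rw [h4, h3] at hb
      exact Bool.noConfusion hb
  obtain ⟨p, hp⟩ := h α
  have hx : grS true cc z z' (ρ.symm p) = !z i := by
    have h1 := hp (e 0) (grS true cc z z' (ρ.symm p)) ((insT_free e cc ρ z z' p _).2 rfl)
    rw [← h1, hα0]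
  have hne : ∀ j : Fin L, e j.succ ≠ e 0 := fun j h =>
    absurd (e.injective h) (Fin.succ_ne_zero j)
  by_cases hm : ∃ i', Cd cc ρ p i'
  · obtain ⟨i', hi'⟩ := hm
    by_cases hii : i' = i
    · subst hii
      rcases hi' with h1 | h1
      · rw [h1, Equiv.symm_apply_apply, grS_0] at hx
        cases h2 : z i' <;> simp [h2] at hx
      · rw [h1, Equiv.symm_apply_apply, grS_2] at hx
        apply hz
        cases h2 : z i' <;> cases h3 : z' i' <;> simp_all
    · obtain ⟨j, hj, hj'⟩ := testBit_ne i'.isLt i.isLt (fun h => hii (Fin.ext h))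
      have h1 := hp (e (Fin.succ ⟨j, hj⟩)) (i'.val.testBit j)
        ((insT_fixed e cc ρ z z' p (hne _) _).2 ⟨⟨j, hj⟩, rfl, fun i'' hi'' => by
          rw [cd_unique cc ρ hi'' hi']⟩)
      rw [hα] at h1
      exact hj' h1.symm
  · have h1 := fun s => hp (e (Fin.succ ⟨0, hL⟩)) s
      ((insT_fixed e cc ρ z z' p (hne _) _).2 ⟨⟨0, hL⟩, rfl, fun i'' hi'' =>
        absurd ⟨i'', hi''⟩ hm⟩)
    have h2 := (h1 true).symm.trans (h1 false)
    exact Bool.noConfusion h2

end

/-- **Tautologies**, one variable. -/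
theorem taut_var (k n m : ℕ) (hm : Nat.log 2 n ≤ m) (v₀ : Fin m) (R : Type) [Fintype R]
    [Nonempty R] (U : R → Circ (Fin n × Fin m × Bool))
    (hU : ∀ r u, (U r).Val u (U r).out → Taut u)
    (hc : ∀ u, Taut u →
      Nat.card R ≤ 2 ^ (n / 2 ^ (60 * (k + 1))) * Nat.card {r // (U r).Val u (U r).out})
    (hdeg : ∀ r, ∃ f : (U r).G → Fin n × Fin m × Bool → ℕ, IsDeg (U r) id f ∧
      ∑ c, (f (U r).out (c, v₀, true) + f (U r).out (c, v₀, false)) ≤ k * n) :
    ∃ r, n ≤ 2 ^ (60 * (k + 1)) * (Nat.log 2 (Fintype.card (U r).G) + 1) := by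
  classical
  rcases Nat.lt_or_ge n 8 with hn8 | hn8
  · obtain ⟨r⟩ := (inferInstance : Nonempty R)
    refine ⟨r, ?_⟩
    have h1 : 2 ^ 60 ≤ 2 ^ (60 * (k + 1)) := Nat.pow_le_pow_right (by norm_num) (by omega)
    have h2 : n ≤ 2 ^ (60 * (k + 1)) := by omega
    exact h2.trans (Nat.le_mul_of_pos_right _ (by omega))
  obtain ⟨L, hL⟩ : ∃ L, L = Nat.log 2 n - 2 := ⟨_, rfl⟩
  have hlog : 3 ≤ Nat.log 2 n := by
    apply Nat.le_log_of_pow_le (by norm_num)
    exact hn8
  have hlow : 2 ^ Nat.log 2 n ≤ n := Nat.pow_log_le_self 2 (by omega)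
  have hhigh : n < 2 ^ (Nat.log 2 n + 1) := Nat.lt_pow_succ_log_self (by norm_num) n
  have e1 : 2 ^ Nat.log 2 n = 2 ^ L * 4 := by
    have : Nat.log 2 n = L + 2 := by omega
    rw [this, pow_add]; norm_num
  have e2 : 2 ^ (Nat.log 2 n + 1) = 2 ^ L * 8 := by
    have : Nat.log 2 n + 1 = L + 3 := by omega
    rw [this, pow_add]; norm_num
  have hL1 : 1 ≤ L := by omega
  obtain ⟨cc⟩ : Nonempty (Fin (2 ^ L) × Fin 4 ↪ Fin n) := by
    apply Function.Embedding.nonempty_of_card_le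
    rw [Fintype.card_prod, Fintype.card_fin, Fintype.card_fin, Fintype.card_fin]
    omega
  obtain ⟨e, he⟩ := exists_ext (n := 1) (α := Fin (L + 1)) (β := Fin m)
    ⟨fun _ => 0, fun i j _ => Subsingleton.elim i j⟩ ⟨fun _ => v₀, fun i j _ => Subsingleton.elim i j⟩
    (by rw [Fintype.card_fin, Fintype.card_fin]; omega)
  have he0 : e 0 = v₀ := he 0
  refine finalJ (ν := true) k (b := 2 ^ L) (by omega) (clsT (e 0)) sgT (fun ρ => fxT e cc ρ) cc
    (fun ρ z z' => Taut (insT e cc ρ z z')) 0 ?_ ?_ R U ?_ ?_ ?_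
  · rw [vol_zero]
    exact Nat.one_le_two_pow
  · rintro ρ z z' h ⟨h1, h2⟩
    unfold dst at h
    obtain ⟨i, hi⟩ := card_pos.1 h
    exact not_taut e cc ρ z z' hL1 (mem_filter.1 hi).2 h1
  · intro r ρ z z' h
    exact hU r _ h
  · intro ρ z
    exact hc _ (taut_eq e cc ρ z)
  · intro r
    obtain ⟨f, hf1, hf2⟩ := hdeg r
    refine ⟨f, hf1, le_trans ?_ hf2⟩
    calc ∑ v with clsT (e 0) v ≠ none, f (U r).out v ≤
        ∑ v ∈ (univ : Finset (Fin n × Bool)).image
          (fun y => ((y.1, v₀, y.2) : Fin n × Fin m × Bool)), f (U r).out v := by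
          apply sum_le_sum_of_subset
          rintro ⟨c, v, s⟩ hv
          rw [mem_filter] at hv
          have h1 := hv.2
          unfold clsT at h1
          by_cases hvv : v = e 0
          · rw [mem_image]
            exact ⟨(c, s), mem_univ _, by rw [hvv, he0]⟩
          · simp only [hvv, if_false] at h1
            exact absurd rfl h1
      _ = ∑ y : Fin n × Bool, f (U r).out (y.1, v₀, y.2) := sum_image (by
          rintro ⟨s, i⟩ _ ⟨s', i'⟩ _ h
          simp only [Prod.mk.injEq, true_and] at h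
          rw [h.1, h.2])
      _ = ∑ c, (f (U r).out (c, v₀, true) + f (U r).out (c, v₀, false)) := by
          rw [Fintype.sum_prod_type]
          exact sum_congr rfl (fun c _ => Fintype.sum_bool _)

/-- **Tautologies**, all bits. -/
theorem taut_total (k n m : ℕ) (hm0 : 0 < m) (hm : Nat.log 2 n ≤ m)
    (U : Circ (Fin n × Fin m × Bool))
    (hU : ∀ u, U.Val u U.out ↔ Taut u)
    (hdeg : ∃ f : U.G → Fin n × Fin m × Bool → ℕ, IsDeg U id f ∧
      ∑ x, f U.out x ≤ k * (2 * n * m)) :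
    n ≤ 2 ^ (60 * (2 * k + 1)) * (Nat.log 2 (Fintype.card U.G) + 1) := by
  classical
  obtain ⟨f, hf1, hf2⟩ := hdeg
  obtain ⟨E, hE⟩ : ∃ E : Fin m → ℕ, ∀ v, E v =
    ∑ c, (f U.out (c, v, true) + f U.out (c, v, false)) := ⟨_, fun _ => rfl⟩
  have htot : ∑ v, E v = ∑ x, f U.out x := by
    rw [Fintype.sum_prod_type]
    rw [sum_congr rfl (fun v _ => hE v), sum_comm]
    refine sum_congr rfl (fun c _ => ?_)
    rw [Fintype.sum_prod_type]
    exact sum_congr rfl (fun v _ => (Fintype.sum_bool (fun s => f U.out (c, v, s))).symm)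
  obtain ⟨v, hv⟩ : ∃ v, E v ≤ 2 * k * n := by
    by_contra hcon
    push Not at hcon
    have h1 : ∑ _v : Fin m, (2 * k * n) < ∑ v, E v :=
      sum_lt_sum_of_nonempty ⟨⟨0, hm0⟩, mem_univ _⟩ (fun v _ => hcon v)
    rw [htot, sum_const, card_univ, Fintype.card_fin, smul_eq_mul] at h1
    have h2 : m * (2 * k * n) = k * (2 * n * m) := by ring
    omega
  obtain ⟨r, hr⟩ := taut_var (2 * k) n m hm v Unit (fun _ => U) (fun _ u h => (hU u).1 h)
    (fun u hu => by
      have h2 : Nat.card {r : Unit // U.Val u U.out} = 1 := by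
        rw [Nat.card_eq_one_iff_unique]
        exact ⟨⟨fun a b => Subtype.ext rfl⟩, ⟨⟨(), (hU u).2 hu⟩⟩⟩
      rw [h2, mul_one, Nat.card_unique]
      exact Nat.one_le_two_pow) (fun _ => ⟨f, hf1, by rw [← hE]; exact hv⟩)
  exact hr

end Pool.Agent.W896.FD.TautD
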