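import Pool.Agent.W896.FD.BIS

/-!
# Vertex covers, and circuits of small formal degree
-/

set_option autoImplicit false
set_option maxHeartbeats 1000000

open Finset

namespace Pool.Agent.W896.FD.VC

open Pool.Agent.W896.RK Pool.Agent.W896.HP Pool.Agent.W896.FD Pool.Agent.W896.FD.Star
open Pool.Agent.W896.FD.Tri (Mt mt_symm mt_ne)
open Pool.Agent.W896.FD.BIS (gr0 gr2 gr_true)

variable {n b : ℕ}

/-- The graph has a vertex cover with at most `K` vertices. -/
def HasVC (K : ℕ) (x : (Fin n × Bool) × (Fin n × Bool) → Bool) : Prop :=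
  ∃ C : Finset (Fin n × Bool), C.card ≤ K ∧ ∀ u v, x (u, v) = true → u ∈ C ∨ v ∈ C

/-- The free bits. -/
def clsC (x : (Fin n × Bool) × (Fin n × Bool)) : Option (Fin n) :=
  if x.1.1 = x.2.1 ∧ x.1.2 = false ∧ x.2.2 = true then some x.1.1 else none

open Classical in
/-- The fixed bits. -/
noncomputable def fxC (c : Fin b × Fin 4 ↪ Fin n)
    (ρ : Equiv.Perm (Fin n)) (x : (Fin n × Bool) × (Fin n × Bool)) : Bool :=
  decide (Mt c ρ x.1.1 x.2.1)

/-- The instance. -/
noncomputable def insC (c : Fin b × Fin 4 ↪ Fin n)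
    (ρ : Equiv.Perm (Fin n)) (z z' : Fin b → Bool) : (Fin n × Bool) × (Fin n × Bool) → Bool :=
  inI true clsC (fun ρ => fxC c ρ) c ρ z z'

section

variable (c : Fin b × Fin 4 ↪ Fin n) (ρ : Equiv.Perm (Fin n)) (z z' : Fin b → Bool)

theorem ins_free (v : Fin n) :
    insC c ρ z z' ((v, false), (v, true)) = grS true c z z' (ρ.symm v) := by
  unfold insC inI clsC
  simp

theorem ins_mt {v w : Fin n} (h : Mt c ρ v w) (s s' : Bool) :
    insC c ρ z z' ((v, s), (w, s')) = true := by
  classical
  have h1 : v ≠ w := mt_ne c ρ h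
  unfold insC inI clsC
  simp only [h1, false_and, if_false]
  unfold fxC
  exact decide_eq_true h

theorem ins_cases {u v : Fin n × Bool} (h : insC c ρ z z' (u, v) = true) :
    (u.1 = v.1 ∧ grS true c z z' (ρ.symm u.1) = true) ∨ Mt c ρ u.1 v.1 := by
  classical
  unfold insC inI clsC at h
  by_cases h1 : u.1 = v.1 ∧ u.2 = false ∧ v.2 = true
  · left
    simp only [h1, and_self, if_true] at h
    exact ⟨h1.1, by rw [h1.1]; exact h⟩
  · right
    simp only [h1, if_false] at h
    unfold fxC at h
    exact of_decide_eq_true h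

theorem vc_eq : HasVC (2 * b) (insC c ρ z z) := by
  classical
  refine ⟨(univ : Finset (Fin b × Bool)).image
    (fun y => ((if z y.1 = true then ρ (c (y.1, 0)) else ρ (c (y.1, 2))), y.2)), ?_, ?_⟩
  · refine card_image_le.trans (le_of_eq ?_)
    rw [card_univ, Fintype.card_prod, Fintype.card_fin, Fintype.card_bool]
    ring
  · have key : ∀ i (u : Fin n × Bool), u.1 = (if z i = true then ρ (c (i, 0)) else ρ (c (i, 2))) →
        u ∈ (univ : Finset (Fin b × Bool)).image
          (fun y => ((if z y.1 = true then ρ (c (y.1, 0)) else ρ (c (y.1, 2))), y.2)) := by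
      intro i u hu
      rw [mem_image]
      exact ⟨(i, u.2), mem_univ _, Prod.ext hu.symm rfl⟩
    intro u v h
    rcases ins_cases c ρ z z h with ⟨h1, h2⟩ | h1
    · left
      obtain ⟨i, hi | hi⟩ := gr_true c z z h2
      · rw [hi, gr0] at h2
        apply key i
        rw [if_pos h2, ← hi, Equiv.apply_symm_apply]
      · rw [hi, gr2] at h2
        apply key i
        have h3 : ¬ (z i = true) := by
          intro h4
          rw [h4] at h2
          exact Bool.noConfusion h2
        rw [if_neg h3, ← hi, Equiv.apply_symm_apply]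
    · obtain ⟨i, ⟨h2, h3⟩ | ⟨h2, h3⟩⟩ := h1
      · by_cases hz : z i = true
        · left; apply key i; rw [if_pos hz]; exact h2
        · right; apply key i; rw [if_neg hz]; exact h3
      · by_cases hz : z i = true
        · right; apply key i; rw [if_pos hz]; exact h3
        · left; apply key i; rw [if_neg hz]; exact h2

/-- The state of the cover in a block. -/
theorem block {C : Finset (Fin n × Bool)}
    (hC : ∀ u v, insC c ρ z z' (u, v) = true → u ∈ C ∨ v ∈ C) (i : Fin b) :
    2 + (if z i = true ∧ z' i = false then 1 else 0) ≤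
      (((univ : Finset (Bool × Bool)).filter (fun y =>
        ((if y.1 = true then ρ (c (i, 0)) else ρ (c (i, 2))), y.2) ∈ C)).card) := by
  classical
  have hm : Mt c ρ (ρ (c (i, 0))) (ρ (c (i, 2))) := ⟨i, Or.inl ⟨rfl, rfl⟩⟩
  have h1 : ∀ s s', (ρ (c (i, 0)), s) ∈ C ∨ (ρ (c (i, 2)), s') ∈ C :=
    fun s s' => hC _ _ (ins_mt c ρ z z' hm s s')
  have h2 : z i = true → (ρ (c (i, 0)), false) ∈ C ∨ (ρ (c (i, 0)), true) ∈ C := by
    intro hz
    apply hC
    rw [ins_free, Equiv.symm_apply_apply, gr0]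
    exact hz
  have h3 : z' i = false → (ρ (c (i, 2)), false) ∈ C ∨ (ρ (c (i, 2)), true) ∈ C := by
    intro hz
    apply hC
    rw [ins_free, Equiv.symm_apply_apply, gr2, hz]
    rfl
  obtain ⟨g, hg⟩ : ∃ g : Bool × Bool → Bool, ∀ y, g y = true ↔
      ((if y.1 = true then ρ (c (i, 0)) else ρ (c (i, 2))), y.2) ∈ C :=
    ⟨fun y => decide (((if y.1 = true then ρ (c (i, 0)) else ρ (c (i, 2))), y.2) ∈ C),
      fun y => decide_eq_true_iff⟩
  have e1 : ∀ s, g (true, s) = true ↔ (ρ (c (i, 0)), s) ∈ C := fun s => by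
    rw [hg]; exact Iff.rfl
  have e2 : ∀ s, g (false, s) = true ↔ (ρ (c (i, 2)), s) ∈ C := fun s => by
    rw [hg]; exact Iff.rfl
  simp only [← hg]
  simp only [← e1, ← e2] at h1 h2 h3
  have dec : ∀ (u u' : Bool) (g : Bool × Bool → Bool),
      (∀ s s', g (true, s) = true ∨ g (false, s') = true) →
      (u = true → g (true, false) = true ∨ g (true, true) = true) →
      (u' = false → g (false, false) = true ∨ g (false, true) = true) →
      2 + (if u = true ∧ u' = false then 1 else 0) ≤
        ((univ : Finset (Bool × Bool)).filter (fun y => g y = true)).card := by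
    decide
  exact dec _ _ g h1 h2 h3

theorem vc_lower {K : ℕ} (h : HasVC K (insC c ρ z z')) :
    2 * b + (univ.filter (fun i => z i = true ∧ z' i = false)).card ≤ K := by
  classical
  obtain ⟨C, hK, hC⟩ := h
  refine le_trans ?_ hK
  have hinj : ∀ (i j : Fin b) (y y' : Bool × Bool),
      (((if y.1 = true then ρ (c (i, 0)) else ρ (c (i, 2))), y.2) : Fin n × Bool) =
        ((if y'.1 = true then ρ (c (j, 0)) else ρ (c (j, 2))), y'.2) → (i, y) = (j, y') := by
    rintro i j ⟨y1, y2⟩ ⟨y1', y2'⟩ h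
    rw [Prod.mk.injEq] at h
    obtain ⟨h1, h2⟩ := h
    simp only at h1 h2
    cases y1 <;> cases y1' <;> simp only [if_true, if_false, Bool.false_eq_true] at h1
    all_goals
      have h3 := c.injective (ρ.injective h1)
      rw [Prod.mk.injEq] at h3
    · rw [h3.1, h2]
    · exact absurd h3.2 (by decide)
    · exact absurd h3.2 (by decide)
    · rw [h3.1, h2]
  have h1 : ((univ : Finset (Fin b × (Bool × Bool))).filter (fun p =>
      ((if p.2.1 = true then ρ (c (p.1, 0)) else ρ (c (p.1, 2))), p.2.2) ∈ C)).card ≤ C.card := by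
    apply card_le_card_of_injOn
      (fun p => ((if p.2.1 = true then ρ (c (p.1, 0)) else ρ (c (p.1, 2))), p.2.2))
    · intro p hp
      exact (mem_filter.1 hp).2
    · rintro ⟨i, y⟩ _ ⟨j, y'⟩ _ h
      exact hinj i j y y' h
  refine le_trans ?_ h1
  have h2 : ((univ : Finset (Fin b × (Bool × Bool))).filter (fun p =>
      ((if p.2.1 = true then ρ (c (p.1, 0)) else ρ (c (p.1, 2))), p.2.2) ∈ C)).card =
      ∑ i, ((univ : Finset (Bool × Bool)).filter (fun y =>
        ((if y.1 = true then ρ (c (i, 0)) else ρ (c (i, 2))), y.2) ∈ C)).card := by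
    simp only [card_filter]
    rw [Fintype.sum_prod_type]
  rw [h2]
  refine le_trans (le_of_eq ?_) (sum_le_sum (fun i _ => block c ρ z z' hC i))
  rw [sum_add_distrib, sum_const, card_univ, Fintype.card_fin, smul_eq_mul, card_filter]
  ring

end

/-- **Vertex covers**, the bits of a perfect matching. -/
theorem vc_main (k n : ℕ) (R : Type) [Fintype R]
    [Nonempty R] (U : R → Circ ((Fin n × Bool) × (Fin n × Bool)))
    (hU : ∀ r x, (U r).Val x (U r).out → HasVC (2 * (n / 4) + n / 2 ^ (120 * (k + 1)) / 2) x)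
    (hc : ∀ x, HasVC (2 * (n / 4)) x →
      Nat.card R ≤ 2 ^ (n / 2 ^ (60 * (k + 1))) * Nat.card {r // (U r).Val x (U r).out})
    (hdeg : ∀ r, ∃ f : (U r).G → (Fin n × Bool) × (Fin n × Bool) → ℕ, IsDeg (U r) id f ∧
      ∑ i, f (U r).out ((i, false), (i, true)) ≤ k * n) :
    ∃ r, n ≤ 2 ^ (60 * (k + 1)) * (Nat.log 2 (Fintype.card (U r).G) + 1) := by
  classical
  obtain ⟨b, hb⟩ : ∃ b, b = n / 4 := ⟨_, rfl⟩
  have hb1 : n < 4 * (b + 1) := by rw [hb]; exact Nat.lt_mul_div_succ n (by norm_num)
  have hb2 : 4 * b ≤ n := by rw [hb]; exact Nat.mul_div_le _ _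
  obtain ⟨c⟩ : Nonempty (Fin b × Fin 4 ↪ Fin n) := by
    apply Function.Embedding.nonempty_of_card_le
    rw [Fintype.card_prod, Fintype.card_fin, Fintype.card_fin, Fintype.card_fin]
    omega
  rw [← hb] at hU hc
  have h120 : 120 * (k + 1) = 2 * (60 * (k + 1)) := by ring
  refine finalI (ν := true) k (b := b) (by omega) clsC (fun ρ => fxC c ρ) c
    (fun ρ z z' => HasVC (2 * b + n / 2 ^ (120 * (k + 1)) / 2) (insC c ρ z z'))
    (n / 2 ^ (120 * (k + 1))) ?_ ?_ R U ?_ ?_ ?_
  · rw [h120]
    exact Pool.Agent.W896.FD.Gap.vol_le (by omega) hb2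
  · rintro ρ z z' h ⟨h1, h2⟩
    have h3 := vc_lower c ρ z z' h1
    have h4 := vc_lower c ρ z' z h2
    have h5 : dst z z' ≤ (univ.filter (fun i => z i = true ∧ z' i = false)).card +
        (univ.filter (fun i => z' i = true ∧ z i = false)).card := by
      unfold dst
      refine le_trans (card_le_card ?_) (card_union_le _ _)
      intro i hi
      rw [mem_union, mem_filter, mem_filter]
      have h6 := (mem_filter.1 hi).2
      cases h7 : z i <;> cases h8 : z' i <;> simp_all
    omega
  · intro r ρ z z' h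
    exact hU r _ h
  · intro ρ z
    exact hc _ (vc_eq c ρ z)
  · intro r
    obtain ⟨f, hf1, hf2⟩ := hdeg r
    refine ⟨f, hf1, le_trans ?_ hf2⟩
    calc ∑ v with clsC v ≠ none, f (U r).out v ≤
        ∑ v ∈ (univ : Finset (Fin n)).image (fun i => ((i, false), (i, true))), f (U r).out v := by
          apply sum_le_sum_of_subset
          rintro ⟨⟨i, s⟩, ⟨j, s'⟩⟩ hv
          rw [mem_filter] at hv
          have h1 := hv.2
          unfold clsC at h1
          by_cases hvv : i = j ∧ s = false ∧ s' = true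
          · rw [mem_image]
            exact ⟨i, mem_univ _, by rw [← hvv.1, hvv.2.1, hvv.2.2]⟩
          · simp only [hvv, if_false] at h1
            exact absurd rfl h1
      _ = ∑ i, f (U r).out ((i, false), (i, true)) := sum_image (by
          intro i _ i' _ h
          simp only [Prod.mk.injEq] at h
          exact h.1.1)

end Pool.Agent.W896.FD.VC
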